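import Mathlib

set_option autoImplicit false

open MeasureTheory
open scoped Topology

namespace Pool.Agent.Helper985.Pol

/-- Euclidean three-space. -/
abbrev E3 := EuclideanSpace ℝ (Fin 3)

/-- admissible trial functions -/
def Adm (φ : E3 → ℝ) : Prop :=
  ContDiff ℝ 1 φ ∧ HasCompactSupport φ ∧ ∫ x, φ x ^ 2 = 1

/-- the quadratic form of the Schroedinger operator with potential `-∑ W j (x - R j)` -/
noncomputable def Q {K : ℕ} (W : Fin K → E3 → ℝ) (R : Fin K → E3) (φ : E3 → ℝ) : ℝ :=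
  (∫ x, ‖fderiv ℝ φ x‖ ^ 2) - ∫ x, (∑ j, W j (x - R j)) * φ x ^ 2

/-- the variational ground-state energy -/
noncomputable def en {K : ℕ} (W : Fin K → E3 → ℝ) (R : Fin K → E3) : EReal :=
  ⨅ (φ : E3 → ℝ) (_ : Adm φ), ((Q W R φ : ℝ) : EReal)

/-- locally integrable radial nonincreasing functions -/
structure Rad (f : E3 → ℝ) : Prop where
  li : LocallyIntegrable f
  rad : ∀ x y : E3, ‖x‖ = ‖y‖ → f x = f y
  mono : ∀ x y : E3, x ≠ 0 → ‖x‖ ≤ ‖y‖ → f y ≤ f x

/-- reflection in the plane `⟪n, x⟫ = c` (for a unit vector `n`) -/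
noncomputable def refl (n : E3) (c : ℝ) (x : E3) : E3 :=
  x - (2 * (inner ℝ n x - c)) • n

/-- smoothed absolute value -/
noncomputable def kk (δ t : ℝ) : ℝ := Real.sqrt (t ^ 2 + δ ^ 2) - δ

/-- sign of the side: `+1` on `⟪n, x⟫ ≤ c`, `-1` on the other side -/
noncomputable def sd (n : E3) (c : ℝ) (x : E3) : ℝ := if inner ℝ n x ≤ c then 1 else -1

/-- regularised polarization of `u` -/
noncomputable def gg (n : E3) (c δ : ℝ) (u : E3 → ℝ) (x : E3) : ℝ :=
  (u x + u (refl n c x)) / 2 + sd n c x * kk δ (u x - u (refl n c x)) / 2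

/-- the polarization of `|φ|` -/
noncomputable def pol (n : E3) (c : ℝ) (φ : E3 → ℝ) (x : E3) : ℝ :=
  if inner ℝ n x ≤ c then max |φ x| |φ (refl n c x)| else min |φ x| |φ (refl n c x)|

end Pool.Agent.Helper985.Pol
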