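import Pool.Agent.Helper985.Pol.Defs

set_option autoImplicit false

open MeasureTheory
open scoped Topology

namespace Pool.Agent.Helper985.Pol

-- TARGET (prove this)
theorem continuous_pot (w : E3 → ℝ) (hw : LocallyIntegrable w) (φ : E3 → ℝ) (hφ : Continuous φ)
    (hc : HasCompactSupport φ) :
    Continuous (fun y : E3 => ∫ x, w (x - y) * φ x ^ 2) := by
  have hgc : Continuous (fun z : E3 => φ (-z) ^ 2) := (hφ.comp continuous_neg).pow 2
  have hgs : HasCompactSupport (fun z : E3 => φ (-z) ^ 2) := by
    have h1 : HasCompactSupport (φ ∘ Homeomorph.neg E3) := hc.comp_homeomorph (Homeomorph.neg E3)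
    exact h1.comp_left (g := fun x : ℝ => x ^ 2) (by norm_num)
  have hcv := HasCompactSupport.continuous_convolution_right (ContinuousLinearMap.mul ℝ ℝ) hgs hw
    hgc
  have h2 := hcv.comp (continuous_neg (G := E3))
  refine h2.congr fun y => ?_
  have h3 := integral_sub_right_eq_self (μ := (volume : Measure E3))
    (fun t => w t * φ (t + y) ^ 2) y
  simp only [sub_add_cancel] at h3
  rw [h3]
  simp only [Function.comp, convolution_def, ContinuousLinearMap.mul_apply']
  refine integral_congr_ae (Filter.Eventually.of_forall fun t => ?_)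
  change w t * φ (-(-y - t)) ^ 2 = w t * φ (t + y) ^ 2
  congr 3
  abel


end Pool.Agent.Helper985.Pol
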