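import Pool.Agent.Helper985.Pol.Defs

set_option autoImplicit false

open MeasureTheory
open scoped Topology

namespace Pool.Agent.Helper985.Pol

-- TARGET (prove this)
theorem en_isometry {K : ℕ} (W : Fin K → E3 → ℝ) (hW : ∀ j, Rad (W j)) (T : E3 ≃ᵃⁱ[ℝ] E3)
    (R : Fin K → E3) : en W (fun j => T (R j)) ≤ en W R := by
  unfold en
  apply le_iInf₂
  intro φ hφ
  set L := T.symm.linearIsometryEquiv with hL
  set p : E3 := T.symm 0 with hp
  have hTs : ∀ x : E3, T.symm x = L x + p := by
    intro x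
    have h := T.symm.map_vadd (0 : E3) x
    simpa using h
  have hmp : MeasurePreserving (fun x : E3 => T.symm x) volume volume := by
    have h1 : MeasurePreserving (L : E3 → E3) volume volume := L.measurePreserving
    have h2 : MeasurePreserving (fun x : E3 => x + p) volume volume := measurePreserving_add_right volume p
    have h3 := h2.comp h1
    have h4 : (fun x : E3 => T.symm x) = (fun x : E3 => x + p) ∘ (L : E3 → E3) := by
      funext x
      exact hTs x
    rw [h4]
    exact h3
  have hme : MeasurableEmbedding (fun x : E3 => T.symm x) := T.symm.toHomeomorph.measurableEmbedding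
  have hfd : ∀ x, HasFDerivAt (fun x : E3 => T.symm x) ((L.toContinuousLinearEquiv : E3 →L[ℝ] E3)) x := by
    intro x
    have h4 : (fun x : E3 => T.symm x) = (fun x : E3 => (L.toContinuousLinearEquiv : E3 →L[ℝ] E3) x + p) := by
      funext x
      exact hTs x
    rw [h4]
    exact ((L.toContinuousLinearEquiv : E3 →L[ℝ] E3).hasFDerivAt).add_const p
  have hnorm : ∀ x, ‖fderiv ℝ (fun x => φ (T.symm x)) x‖ = ‖fderiv ℝ φ (T.symm x)‖ := by
    intro x
    have h5 : HasFDerivAt φ (fderiv ℝ φ (T.symm x)) (T.symm x) :=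
      (hφ.1.differentiable (by norm_num) _).hasFDerivAt
    have h6 : HasFDerivAt (fun x => φ (T.symm x))
      ((fderiv ℝ φ (T.symm x)).comp (L.toContinuousLinearEquiv : E3 →L[ℝ] E3)) x := h5.comp x (hfd x)
    rw [h6.fderiv]
    exact ContinuousLinearMap.opNorm_comp_linearIsometryEquiv (fderiv ℝ φ (T.symm x)) L
  have hadm : Adm (fun x => φ (T.symm x)) := by
    refine ⟨?_, ?_, ?_⟩
    · apply hφ.1.comp
      show ContDiff ℝ 1 (fun x : E3 => T.symm x)
      have h4 : (fun x : E3 => T.symm x) = (fun x : E3 => (L.toContinuousLinearEquiv : E3 →L[ℝ] E3) x + p) := by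
        funext x
        exact hTs x
      rw [h4]
      exact (L.toContinuousLinearEquiv : E3 →L[ℝ] E3).contDiff.add contDiff_const
    · exact hφ.2.1.comp_homeomorph T.symm.toHomeomorph
    · rw [hmp.integral_comp hme (fun x => φ x ^ 2)]
      exact hφ.2.2
  refine iInf₂_le_of_le (fun x => φ (T.symm x)) hadm ?_
  apply le_of_eq
  congr 1
  unfold Q
  have e1 : ∫ x, ‖fderiv ℝ (fun x => φ (T.symm x)) x‖ ^ 2 = ∫ x, ‖fderiv ℝ φ x‖ ^ 2 := by
    simp only [hnorm]
    exact hmp.integral_comp hme (fun x => ‖fderiv ℝ φ x‖ ^ 2)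
  have e2 : ∫ x, (∑ j, W j (x - T (R j))) * φ (T.symm x) ^ 2 = ∫ x, (∑ j, W j (x - R j)) * φ x ^ 2 := by
    have hW' : ∀ x, ∀ j, W j (x - T (R j)) = W j (T.symm x - R j) := by
      intro x j
      apply (hW j).rad
      rw [← dist_eq_norm, ← dist_eq_norm, ← T.symm.dist_map x (T (R j)), T.symm_apply_apply]
    simp only [hW']
    exact hmp.integral_comp hme (fun x => (∑ j, W j (x - R j)) * φ x ^ 2)
  rw [e1, e2]

end Pool.Agent.Helper985.Pol
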