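import Pool.Agent.Helper985.Pol.M_continuous_pot
import Pool.Agent.Helper985.Pol.Defs

set_option autoImplicit false

open MeasureTheory
open scoped Topology

namespace Pool.Agent.Helper985.Pol


-- TARGET (prove this)
/-- limits of the larger configuration -/
theorem en_limit {K : ℕ} (W : Fin K → E3 → ℝ) (hW : ∀ j, Rad (W j)) (R R' : Fin K → E3)
    (h : ∀ ε : ℝ, 0 < ε → ∃ S : Fin K → E3, (∀ i, ‖S i - R' i‖ ≤ ε) ∧ en W R ≤ en W S) :
    en W R ≤ en W R' := by
  have hint : ∀ (φ : E3 → ℝ), Continuous φ → HasCompactSupport φ → ∀ (j : Fin K) (y : E3),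
      Integrable (fun x => W j (x - y) * φ x ^ 2) := by
    intro φ hφ hc j y
    have h1 : Integrable (fun x => (φ (x + y) ^ 2) • W j x) := by
      apply ((hW j).li).integrable_smul_left_of_hasCompactSupport
      · exact (hφ.comp (continuous_id.add continuous_const)).pow 2
      · have h2 : HasCompactSupport (fun x => φ (x + y)) :=
          hc.comp_homeomorph (Homeomorph.addRight y)
        have h3 : (fun x => φ (x + y) ^ 2) = (fun t : ℝ => t ^ 2) ∘ (fun x => φ (x + y)) := rfl
        rw [h3]
        exact h2.comp_left (by norm_num)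
    have h4 := h1.comp_sub_right y
    refine h4.congr (Filter.Eventually.of_forall (fun x => ?_))
    simp only [sub_add_cancel, smul_eq_mul]
    ring
  have hQ : ∀ (φ : E3 → ℝ), Continuous φ → HasCompactSupport φ → ∀ S : Fin K → E3,
      Q W S φ = (∫ x, ‖fderiv ℝ φ x‖ ^ 2) - ∑ j, ∫ x, W j (x - S j) * φ x ^ 2 := by
    intro φ hφ hc S
    unfold Q
    congr 1
    rw [← integral_finset_sum _ (fun j _ => hint φ hφ hc j (S j))]
    refine integral_congr_ae (Filter.Eventually.of_forall (fun x => ?_))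
    simp only [Finset.sum_mul]
  unfold en
  refine le_iInf₂ (fun φ hφ => ?_)
  have hφc : Continuous φ := hφ.1.continuous
  have hφs : HasCompactSupport φ := hφ.2.1
  choose S hS1 hS2 using fun n : ℕ => h (1 / ((n : ℝ) + 1)) (by positivity)
  have hS3 : ∀ n, en W R ≤ ((Q W (S n) φ : ℝ) : EReal) := fun n =>
    (hS2 n).trans (iInf₂_le φ hφ)
  have hSi : ∀ i, Filter.Tendsto (fun n => S n i) Filter.atTop (𝓝 (R' i)) := by
    intro i
    rw [tendsto_iff_norm_sub_tendsto_zero]
    refine squeeze_zero (fun n => norm_nonneg _) (fun n => hS1 n i) ?_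
    exact tendsto_one_div_add_atTop_nhds_zero_nat
  have hlim : Filter.Tendsto (fun n => Q W (S n) φ) Filter.atTop (𝓝 (Q W R' φ)) := by
    simp_rw [hQ φ hφc hφs]
    refine Filter.Tendsto.sub tendsto_const_nhds ?_
    refine tendsto_finset_sum _ (fun j _ => ?_)
    exact ((continuous_pot (W j) (hW j).li φ hφc hφs).tendsto (R' j)).comp (hSi j)
  have hlim2 : Filter.Tendsto (fun n => ((Q W (S n) φ : ℝ) : EReal)) Filter.atTop
      (𝓝 ((Q W R' φ : ℝ) : EReal)) :=
    (continuous_coe_real_ereal.tendsto _).comp hlim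
  exact ge_of_tendsto hlim2 (Filter.Eventually.of_forall hS3)

end Pool.Agent.Helper985.Pol
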