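import Pool.Agent.Helper985.Pol.Defs

set_option autoImplicit false

open MeasureTheory
open scoped Topology

namespace Pool.Agent.Helper985.Pol

-- TARGET (prove this)

theorem exists_gram (G : Matrix (Fin 3) (Fin 3) ℝ) (hG : G.PosSemidef) :
    ∃ v : Fin 3 → E3, ∀ i j, inner ℝ (v i) (v j) = G i j := by
  open scoped MatrixOrder in
  obtain ⟨B, hB⟩ := CStarAlgebra.nonneg_iff_eq_star_mul_self.1 hG.nonneg
  refine ⟨fun i => WithLp.toLp 2 (fun k => B k i), fun i j => ?_⟩
  rw [hB, Matrix.mul_apply, PiLp.inner_apply]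
  refine Finset.sum_congr rfl fun k _ => ?_
  simp [Matrix.star_eq_conjTranspose, mul_comm]

end Pool.Agent.Helper985.Pol
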