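import Pool.Agent.Helper985.Pol.Defs

set_option autoImplicit false

open MeasureTheory
open scoped Topology

namespace Pool.Agent.Helper985.Pol

-- TARGET (prove this)
/-- congruent subfamilies are related by an isometry of the space -/
theorem exists_isometry {K : ℕ} (P : Fin K → Prop) (R S : Fin K → E3)
    (h : ∀ i j, P i → P j → dist (R i) (R j) = dist (S i) (S j)) :
    ∃ T : E3 ≃ᵃⁱ[ℝ] E3, ∀ i, P i → T (R i) = S i := by
  classical
  by_cases hP : ∃ i, P i
  swap
  · push Not at hP
    exact ⟨AffineIsometryEquiv.refl ℝ E3, fun i hi => absurd hi (hP i)⟩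
  obtain ⟨i0, hi0⟩ := hP
  let v : {i // P i} → E3 := fun i => R i - R i0
  let u : {i // P i} → E3 := fun i => S i - S i0
  have hn : ∀ i, ‖v i‖ = ‖u i‖ := fun i => by
    have := h i i0 i.2 hi0
    rwa [dist_eq_norm, dist_eq_norm] at this
  have hnn : ∀ i j, ‖v i - v j‖ = ‖u i - u j‖ := fun i j => by
    have h1 := h i j i.2 j.2
    rw [dist_eq_norm, dist_eq_norm] at h1
    have h2 : v i - v j = R i - R j := by simp only [v]; abel
    have h3 : u i - u j = S i - S j := by simp only [u]; abel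
    rw [h2, h3, h1]
  have hin : ∀ i j, inner ℝ (v i) (v j) = inner ℝ (u i) (u j) := fun i j => by
    rw [real_inner_eq_norm_mul_self_add_norm_mul_self_sub_norm_sub_mul_self_div_two,
      real_inner_eq_norm_mul_self_add_norm_mul_self_sub_norm_sub_mul_self_div_two, hn, hn, hnn]
  let f : ({i // P i} → ℝ) →ₗ[ℝ] E3 := Fintype.linearCombination ℝ v
  let g : ({i // P i} → ℝ) →ₗ[ℝ] E3 := Fintype.linearCombination ℝ u
  have hfa : ∀ c, f c = ∑ i, c i • v i := fun c => Fintype.linearCombination_apply ℝ v c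
  have hga : ∀ c, g c = ∑ i, c i • u i := fun c => Fintype.linearCombination_apply ℝ u c
  have hnorm : ∀ c, ‖f c‖ = ‖g c‖ := fun c => by
    have h1 : inner ℝ (f c) (f c) = inner ℝ (g c) (g c) := by
      rw [hfa, hga]
      simp only [sum_inner, inner_sum, real_inner_smul_left, real_inner_smul_right, hin]
    rw [real_inner_self_eq_norm_sq, real_inner_self_eq_norm_sq] at h1
    exact (pow_left_inj₀ (norm_nonneg _) (norm_nonneg _) two_ne_zero).1 h1
  have hker : LinearMap.ker f ≤ LinearMap.ker g := by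
    intro c hc
    rw [LinearMap.mem_ker] at hc ⊢
    rw [← norm_eq_zero, ← hnorm, hc, norm_zero]
  let L0 : LinearMap.range f →ₗ[ℝ] E3 :=
    ((LinearMap.ker f).liftQ g hker).comp f.quotKerEquivRange.symm.toLinearMap
  have hL0 : ∀ c, L0 ⟨f c, LinearMap.mem_range_self f c⟩ = g c := fun c => by
    have h1 : f.quotKerEquivRange.symm ⟨f c, LinearMap.mem_range_self f c⟩ =
        (LinearMap.ker f).mkQ c := by
      rw [LinearEquiv.symm_apply_eq]
      rfl
    show ((LinearMap.ker f).liftQ g hker) (f.quotKerEquivRange.symm _) = _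
    rw [h1]
    rfl
  let L1 : LinearMap.range f →ₗᵢ[ℝ] E3 := ⟨L0, by
    rintro ⟨_, c, rfl⟩
    rw [hL0 c]
    exact (hnorm c).symm⟩
  let L2 : E3 →ₗᵢ[ℝ] E3 := L1.extend
  let L3 : E3 ≃ₗᵢ[ℝ] E3 := L2.toLinearIsometryEquiv rfl
  have hL3 : ∀ i, L3 (v i) = u i := fun i => by
    have h1 : f (Pi.single i 1) = v i := by
      rw [hfa, Finset.sum_eq_single i]
      · simp
      · intro j _ hj; simp [Pi.single_eq_of_ne hj]
      · intro hi; exact absurd (Finset.mem_univ i) hi
    have h2 : g (Pi.single i 1) = u i := by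
      rw [hga, Finset.sum_eq_single i]
      · simp
      · intro j _ hj; simp [Pi.single_eq_of_ne hj]
      · intro hi; exact absurd (Finset.mem_univ i) hi
    show L2 (v i) = u i
    have h3 := L1.extend_apply ⟨f (Pi.single i 1), LinearMap.mem_range_self f _⟩
    rw [← h1, ← h2, ← hL0]
    exact h3
  refine ⟨(AffineIsometryEquiv.constVAdd ℝ E3 (-(R i0))).trans
    (L3.toAffineIsometryEquiv.trans (AffineIsometryEquiv.constVAdd ℝ E3 (S i0))), ?_⟩
  intro i hi
  have h1 := hL3 ⟨i, hi⟩
  show S i0 + L3 (-(R i0) + R i) = S i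
  have h2 : -(R i0) + R i = v ⟨i, hi⟩ := by simp only [v]; abel
  rw [h2, h1]
  simp only [u]
  abel

end Pool.Agent.Helper985.Pol
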