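import Pool.Agent.Helper985.Pol.M_refl_basic
import Pool.Agent.Helper985.Pol.Defs

set_option autoImplicit false

open MeasureTheory
open scoped Topology

namespace Pool.Agent.Helper985.Pol





theorem zz_sd_loc (n : E3) (c : ℝ) (x : E3) (hx : inner ℝ n x ≠ c) :
    ∀ᶠ y in 𝓝 x, sd n c y = sd n c x := by
  have hc : Continuous (fun y : E3 => inner ℝ n y) := by fun_prop
  rcases lt_or_gt_of_ne hx with h | h
  · filter_upwards [hc.continuousAt.eventually (gt_mem_nhds h)] with y hy
    rw [sd, sd, if_pos hy.le, if_pos h.le]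
  · filter_upwards [hc.continuousAt.eventually (lt_mem_nhds h)] with y hy
    rw [sd, sd, if_neg (not_le.2 hy), if_neg (not_le.2 h)]

theorem zz_sd_abs (n : E3) (c : ℝ) (x : E3) : |sd n c x| = 1 := by
  unfold sd
  split_ifs <;> simp

theorem zz_key (n : E3) (c : ℝ) (h1 : E3 → ℝ) (hh : ContDiff ℝ 1 h1)
    (h0 : ∀ x, inner ℝ n x = c → h1 x = 0) (h0' : ∀ x, inner ℝ n x = c → fderiv ℝ h1 x = 0) :
    ContDiff ℝ 1 (fun x => sd n c x * h1 x) := by
  rw [contDiff_one_iff_hasFDerivAt]
  have hF : Continuous (fderiv ℝ h1) := hh.continuous_fderiv (by simp)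
  have hd : Differentiable ℝ h1 := hh.differentiable (by simp)
  refine ⟨fun x => sd n c x • fderiv ℝ h1 x, ?_, fun x => ?_⟩
  · rw [continuous_iff_continuousAt]
    intro x
    by_cases hx : inner ℝ n x = c
    · have h2 : Filter.Tendsto (fun y => ‖fderiv ℝ h1 y‖) (𝓝 x) (𝓝 0) := by
        have h3 : Filter.Tendsto (fun y => ‖fderiv ℝ h1 y‖) (𝓝 x) (𝓝 ‖fderiv ℝ h1 x‖) :=
          hF.norm.continuousAt (x := x)
        rwa [h0' x hx, norm_zero] at h3
      have h4 : sd n c x • fderiv ℝ h1 x = 0 := by rw [h0' x hx, smul_zero]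
      change Filter.Tendsto _ (𝓝 x) (𝓝 (sd n c x • fderiv ℝ h1 x))
      rw [h4]
      apply squeeze_zero_norm _ h2
      intro y
      rw [norm_smul, Real.norm_eq_abs, zz_sd_abs, one_mul]
    · have h2 : ContinuousAt (fun y => sd n c x • fderiv ℝ h1 y) x := by
        have h3 : Continuous (fun y => sd n c x • fderiv ℝ h1 y) := by fun_prop
        exact h3.continuousAt
      apply h2.congr
      filter_upwards [zz_sd_loc n c x hx] with y hy
      rw [hy]
  · by_cases hx : inner ℝ n x = c
    · have h2 := (hd x).hasFDerivAt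
      change HasFDerivAt _ (sd n c x • fderiv ℝ h1 x) x
      rw [h0' x hx] at h2 ⊢
      rw [smul_zero, hasFDerivAt_iff_isLittleO]
      rw [hasFDerivAt_iff_isLittleO] at h2
      rw [Asymptotics.isLittleO_iff] at h2 ⊢
      intro ε hε
      filter_upwards [h2 hε] with y hy
      rw [h0 x hx] at hy ⊢
      have hz : ∀ v : E3, (0 : E3 →L[ℝ] ℝ) v = 0 := fun v => rfl
      rw [hz, sub_zero, sub_zero] at hy
      rw [hz, mul_zero, sub_zero, sub_zero, norm_mul, Real.norm_eq_abs (sd n c y), zz_sd_abs,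
        one_mul]
      exact hy
    · have h2 : HasFDerivAt (fun y => sd n c x * h1 y) (sd n c x • fderiv ℝ h1 x) x :=
        (hd x).hasFDerivAt.const_mul _
      apply h2.congr_of_eventuallyEq
      filter_upwards [zz_sd_loc n c x hx] with y hy
      rw [hy]

-- TARGET (prove this)
theorem gg_contDiff (n : E3) (c δ : ℝ) (hn : ‖n‖ = 1) (hδ : 0 < δ) (u : E3 → ℝ)
    (hu : ContDiff ℝ 1 u) : ContDiff ℝ 1 (gg n c δ u) := by
  have hr : ContDiff ℝ 1 (refl n c) := (contDiff_refl n c).of_le le_top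
  have hur : ContDiff ℝ 1 (fun x => u (refl n c x)) := hu.comp hr
  have hd : ContDiff ℝ 1 (fun x => u x - u (refl n c x)) := hu.sub hur
  have hk : ContDiff ℝ 1 (fun x => kk δ (u x - u (refl n c x))) := by
    unfold kk
    refine ContDiff.sub (ContDiff.sqrt ((hd.pow 2).add contDiff_const) ?_) contDiff_const
    intro x
    positivity
  have hpl : ∀ x, inner ℝ n x = c → u x - u (refl n c x) = 0 := by
    intro x hx
    have : refl n c x = x := by
      rw [refl, hx]
      simp
    rw [this, sub_self]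
  have hk0 : kk δ 0 = 0 := by
    rw [kk, zero_pow two_ne_zero, zero_add, Real.sqrt_sq hδ.le, sub_self]
  have hkn : ∀ t, 0 ≤ kk δ t := by
    intro t
    rw [kk, sub_nonneg]
    apply Real.le_sqrt_of_sq_le
    nlinarith [sq_nonneg t]
  have h1 : ∀ x, inner ℝ n x = c → kk δ (u x - u (refl n c x)) = 0 := by
    intro x hx
    rw [hpl x hx, hk0]
  have h2 : ∀ x, inner ℝ n x = c →
      fderiv ℝ (fun x => kk δ (u x - u (refl n c x))) x = 0 := by
    intro x hx
    apply IsLocalMin.fderiv_eq_zero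
    apply Filter.Eventually.of_forall
    intro y
    change kk δ (u x - u (refl n c x)) ≤ _
    rw [h1 x hx]
    exact hkn _
  have h3 := zz_key n c _ hk h1 h2
  exact ((hu.add hur).div_const 2).add (h3.div_const 2)

end Pool.Agent.Helper985.Pol
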