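import Pool.Agent.Helper985.Pol.M_refl_basic
import Pool.Agent.Helper985.Pol.Defs

set_option autoImplicit false

open MeasureTheory
open scoped Topology

namespace Pool.Agent.Helper985.Pol






theorem nfc_le (n : E3) (c : ℝ) (hn : ‖n‖ = 1) (u : E3 → ℝ) (hu : Differentiable ℝ u) (x : E3) :
    ‖fderiv ℝ (fun y => u (refl n c y)) x‖ ≤ ‖fderiv ℝ u (refl n c x)‖ := by
  have hL : LipschitzWith 1 (refl n c) := by
    apply LipschitzWith.of_dist_le_mul
    intro x y
    rw [dist_eq_norm, dist_eq_norm, norm_refl_sub n c hn]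
    simp
  have hd : DifferentiableAt ℝ (refl n c) x :=
    ((contDiff_refl n c).differentiable (by simp)) x
  have h1 : fderiv ℝ (fun y => u (refl n c y)) x =
      (fderiv ℝ u (refl n c x)).comp (fderiv ℝ (refl n c) x) :=
    fderiv_comp x (hu (refl n c x)) hd
  rw [h1]
  have h2 : ‖fderiv ℝ (refl n c) x‖ ≤ 1 := by
    have := norm_fderiv_le_of_lipschitz ℝ hL (x₀ := x)
    simpa using this
  calc ‖(fderiv ℝ u (refl n c x)).comp (fderiv ℝ (refl n c) x)‖
      ≤ ‖fderiv ℝ u (refl n c x)‖ * ‖fderiv ℝ (refl n c) x‖ :=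
        ContinuousLinearMap.opNorm_comp_le _ _
    _ ≤ ‖fderiv ℝ u (refl n c x)‖ * 1 := by gcongr
    _ = _ := mul_one _

-- TARGET (prove this)
theorem norm_fderiv_comp_refl (n : E3) (c : ℝ) (hn : ‖n‖ = 1) (u : E3 → ℝ)
    (hu : ContDiff ℝ 1 u) (x : E3) :
    ‖fderiv ℝ (fun y => u (refl n c y)) x‖ = ‖fderiv ℝ u (refl n c x)‖ := by
  have hd : Differentiable ℝ u := hu.differentiable (by simp)
  have hdr : Differentiable ℝ (refl n c) := (contDiff_refl n c).differentiable (by simp)
  apply le_antisymm (nfc_le n c hn u hd x)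
  have h1 := nfc_le n c hn (fun y => u (refl n c y)) (hd.comp hdr) (refl n c x)
  have h2 : (fun y => u (refl n c (refl n c y))) = u := by
    funext y
    rw [refl_refl n c hn]
  rw [refl_refl n c hn, h2] at h1
  exact h1

end Pool.Agent.Helper985.Pol
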