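import Pool.Agent.Helper985.Pol.Defs

set_option autoImplicit false

open MeasureTheory
open scoped Topology

namespace Pool.Agent.Helper985.Pol

theorem refl_aux (n : E3) (hn : ‖n‖ = 1) : inner ℝ n n = (1 : ℝ) := by
  rw [real_inner_self_eq_norm_sq, hn, one_pow]

theorem refl_inner_aux (n : E3) (c : ℝ) (hn : ‖n‖ = 1) (x : E3) :
    inner ℝ n (refl n c x) = 2 * c - inner ℝ n x := by
  rw [refl, inner_sub_right, real_inner_smul_right, refl_aux n hn]
  ring

-- TARGET (prove this)
theorem refl_refl (n : E3) (c : ℝ) (hn : ‖n‖ = 1) (x : E3) : refl n c (refl n c x) = x := by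
  have h := refl_inner_aux n c hn x
  have h1 : refl n c (refl n c x) = refl n c x - (2 * (inner ℝ n (refl n c x) - c)) • n := rfl
  rw [h1, h, refl, sub_sub, ← add_smul]
  have h2 : 2 * (inner ℝ n x - c) + 2 * (2 * c - inner ℝ n x - c) = 0 := by ring
  rw [h2, zero_smul, sub_zero]

-- TARGET (prove this)
theorem inner_refl (n : E3) (c : ℝ) (hn : ‖n‖ = 1) (x : E3) :
    inner ℝ n (refl n c x) - c = -(inner ℝ n x - c) := by
  rw [refl_inner_aux n c hn]; ring

-- TARGET (prove this)
theorem norm_refl_sub (n : E3) (c : ℝ) (hn : ‖n‖ = 1) (x y : E3) :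
    ‖refl n c x - refl n c y‖ = ‖x - y‖ := by
  have e : refl n c x - refl n c y = (x - y) - (2 * inner ℝ n (x - y)) • n := by
    rw [refl, refl, inner_sub_right]
    have : (2 * (inner ℝ n x - inner ℝ n y)) = 2 * (inner ℝ n x - c) - 2 * (inner ℝ n y - c) := by
      ring
    rw [this, sub_smul]
    abel
  have h : ‖refl n c x - refl n c y‖ ^ 2 = ‖x - y‖ ^ 2 := by
    rw [e, norm_sub_sq_real, norm_smul, hn, real_inner_smul_right, real_inner_comm,
      Real.norm_eq_abs, mul_one, sq_abs]
    ring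
  exact (pow_left_inj₀ (norm_nonneg _) (norm_nonneg _) two_ne_zero).mp h

-- TARGET (prove this)
/-- on the same side, the reflected point is farther -/
theorem dist_refl_ge (n : E3) (c : ℝ) (hn : ‖n‖ = 1) (x r : E3) (hx : inner ℝ n x ≤ c)
    (hr : inner ℝ n r ≤ c) : ‖x - r‖ ≤ ‖refl n c x - r‖ := by
  have e : refl n c x - r = (x - r) - (2 * (inner ℝ n x - c)) • n := by
    rw [refl]; abel
  have h : ‖x - r‖ ^ 2 ≤ ‖refl n c x - r‖ ^ 2 := by
    rw [e, norm_sub_sq_real (x - r), norm_smul, hn, real_inner_smul_right,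
      real_inner_comm n (x - r), inner_sub_right, Real.norm_eq_abs, mul_one, sq_abs]
    have h1 : 0 ≤ (c - inner ℝ n x) * (c - inner ℝ n r) :=
      mul_nonneg (by linarith) (by linarith)
    nlinarith
  exact (pow_le_pow_iff_left₀ (norm_nonneg _) (norm_nonneg _) two_ne_zero).mp h

-- TARGET (prove this)
theorem contDiff_refl (n : E3) (c : ℝ) : ContDiff ℝ ⊤ (refl n c) := by
  have h1 : ContDiff ℝ ⊤ (fun x : E3 => inner ℝ n x) := contDiff_const.inner ℝ contDiff_id
  exact contDiff_id.sub ((contDiff_const.mul (h1.sub contDiff_const)).smul contDiff_const)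

end Pool.Agent.Helper985.Pol
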