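import Pool.Agent.Helper985.Pol.M_refl_basic
import Pool.Agent.Helper985.Pol.Defs

set_option autoImplicit false

open MeasureTheory
open scoped Topology

namespace Pool.Agent.Helper985.Pol




-- TARGET (prove this)
theorem measurePreserving_refl (n : E3) (c : ℝ) (hn : ‖n‖ = 1) :
    MeasurePreserving (refl n c) (volume : Measure E3) volume := by
  have h1 : (refl n c) = (fun x => x + (2 * c) • n) ∘ ((ℝ ∙ n)ᗮ.reflection) := by
    funext x
    simp only [Function.comp, refl]
    rw [Submodule.reflection_orthogonal_apply, Submodule.reflection_singleton_apply, hn]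
    simp only [RCLike.ofReal_real_eq_id, id, one_pow, div_one, neg_sub, mul_sub, sub_smul, mul_smul]
    rw [show (2:ℕ) • (inner ℝ n x : ℝ) • n = (2:ℝ) • (inner ℝ n x : ℝ) • n from by
      rw [two_smul, two_smul]]
    abel
  rw [h1]
  exact (measurePreserving_add_right volume _).comp (LinearIsometryEquiv.measurePreserving _)

-- TARGET (prove this)
theorem integral_refl (n : E3) (c : ℝ) (hn : ‖n‖ = 1) (F : E3 → ℝ) :
    ∫ x, F (refl n c x) = ∫ x, F x := by
  have hc : Continuous (refl n c) := (contDiff_refl n c).continuous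
  let e : E3 ≃ₜ E3 :=
    { toFun := refl n c
      invFun := refl n c
      left_inv := refl_refl n c hn
      right_inv := refl_refl n c hn
      continuous_toFun := hc
      continuous_invFun := hc }
  have := (measurePreserving_refl n c hn).integral_comp (f := refl n c) e.measurableEmbedding F
  exact this

-- TARGET (prove this)
theorem plane_null (n : E3) (c : ℝ) (hn : ‖n‖ = 1) :
    volume {x : E3 | inner ℝ n x = c} = 0 := by
  have hne : n ≠ 0 := by
    intro h
    rw [h, norm_zero] at hn
    exact zero_ne_one hn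
  have h0 : volume ((LinearMap.ker (innerSL ℝ n : E3 →L[ℝ] ℝ).toLinearMap : Submodule ℝ E3) : Set E3) = 0 := by
    apply Measure.addHaar_submodule
    intro htop
    have : n ∈ (LinearMap.ker (innerSL ℝ n : E3 →L[ℝ] ℝ).toLinearMap : Submodule ℝ E3) := by
      rw [htop]; trivial
    rw [LinearMap.mem_ker] at this
    have h2 : (inner ℝ n n : ℝ) = 0 := this
    rw [inner_self_eq_zero] at h2
    exact hne h2
  have h3 : {x : E3 | inner ℝ n x = c} = (fun x => x + (-(c • n))) ⁻¹' ((LinearMap.ker (innerSL ℝ n : E3 →L[ℝ] ℝ).toLinearMap : Submodule ℝ E3) : Set E3) := by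
    ext x
    have h4 : (x + (-(c • n)) ∈ (LinearMap.ker (innerSL ℝ n : E3 →L[ℝ] ℝ).toLinearMap : Submodule ℝ E3)) ↔ (inner ℝ n (x + (-(c • n))) : ℝ) = 0 := by
      rw [LinearMap.mem_ker]; exact Iff.rfl
    simp only [Set.mem_setOf_eq, Set.mem_preimage, SetLike.mem_coe]
    rw [h4, inner_add_right, inner_neg_right, inner_smul_right, real_inner_self_eq_norm_sq, hn]
    constructor
    · intro h; rw [h]; ring
    · intro h; linarith
  rw [h3, measure_preimage_add_right]
  exact h0

end Pool.Agent.Helper985.Pol
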