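import Pool.Agent.Helper985.Pol.M_gg_compact
import Pool.Agent.Helper985.Pol.M_gg_contDiff
import Pool.Agent.Helper985.Pol.M_nfc
import Pool.Agent.Helper985.Pol.M_refl_basic
import Pool.Agent.Helper985.Pol.M_refl_meas
import Pool.Agent.Helper985.Pol.Defs

set_option autoImplicit false

open MeasureTheory
open scoped Topology

namespace Pool.Agent.Helper985.Pol










theorem par_dual (a b : E3 →L[ℝ] ℝ) :
    ‖a + b‖ ^ 2 + ‖a - b‖ ^ 2 = 2 * (‖a‖ ^ 2 + ‖b‖ ^ 2) := by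
  have h := parallelogram_law_with_norm ℝ ((InnerProductSpace.toDual ℝ E3).symm a)
    ((InnerProductSpace.toDual ℝ E3).symm b)
  rw [← map_add, ← map_sub] at h
  simp only [LinearIsometryEquiv.norm_map] at h
  nlinarith [h]

/-- the derivative of `kk` -/
theorem kk_hasDeriv (δ t : ℝ) (hδ : 0 < δ) :
    HasDerivAt (kk δ) (t / Real.sqrt (t ^ 2 + δ ^ 2)) t := by
  unfold kk
  have hpos : (0:ℝ) < t ^ 2 + δ ^ 2 := by positivity
  have h1 : HasDerivAt (fun t : ℝ => t ^ 2 + δ ^ 2) (2 * t) t := by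
    have := (hasDerivAt_pow 2 t).add_const (δ ^ 2)
    simpa using this
  have h2 := (h1.sqrt hpos.ne').sub_const δ
  rw [mul_div_mul_left _ _ (two_ne_zero)] at h2
  exact h2

theorem kk_deriv_le (δ t : ℝ) (hδ : 0 < δ) :
    (t / Real.sqrt (t ^ 2 + δ ^ 2)) ^ 2 ≤ 1 := by
  have hpos : (0:ℝ) < t ^ 2 + δ ^ 2 := by positivity
  rw [div_pow, Real.sq_sqrt hpos.le, div_le_one hpos]
  nlinarith [sq_nonneg δ]

theorem kk_even (δ t : ℝ) : kk δ (-t) = kk δ t := by
  unfold kk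
  ring_nf

theorem pt_ineq (fu fv : E3 →L[ℝ] ℝ) (k : ℝ) (hk : k ^ 2 ≤ 1) :
    ‖(1/2 : ℝ) • (fu + fv) + (k / 2) • (fu - fv)‖ ^ 2
      + ‖(1/2 : ℝ) • (fu + fv) - (k / 2) • (fu - fv)‖ ^ 2 ≤ ‖fu‖ ^ 2 + ‖fv‖ ^ 2 := by
  rw [par_dual]
  have h2 := par_dual fu fv
  rw [norm_smul, norm_smul, mul_pow, mul_pow]
  have e1 : ‖(1/2 : ℝ)‖ ^ 2 = 1 / 4 := by
    rw [Real.norm_eq_abs, sq_abs]; norm_num
  have e2 : ‖(k/2 : ℝ)‖ ^ 2 = k ^ 2 / 4 := by
    rw [Real.norm_eq_abs, sq_abs]; ring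
  rw [e1, e2]
  nlinarith [sq_nonneg ‖fu - fv‖, mul_le_mul_of_nonneg_right hk (sq_nonneg ‖fu - fv‖)]

theorem sd_loc (n : E3) (c : ℝ) (x : E3) (hx : inner ℝ n x ≠ c) :
    ∀ᶠ y in 𝓝 x, sd n c y = sd n c x := by
  have hcont : Continuous (fun y : E3 => inner ℝ n y) := by fun_prop
  rcases lt_or_gt_of_ne hx with h | h
  · have : ∀ᶠ y in 𝓝 x, inner ℝ n y < c := hcont.continuousAt.eventually_lt_const h
    filter_upwards [this] with y hy
    unfold sd
    rw [if_pos hy.le, if_pos h.le]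
  · have : ∀ᶠ y in 𝓝 x, c < inner ℝ n y := hcont.continuousAt.eventually_const_lt h
    filter_upwards [this] with y hy
    unfold sd
    rw [if_neg (not_le.2 hy), if_neg (not_le.2 h)]

theorem sd_refl (n : E3) (c : ℝ) (hn : ‖n‖ = 1) (x : E3) (hx : inner ℝ n x ≠ c) :
    sd n c (refl n c x) = - sd n c x := by
  have h1 := inner_refl n c hn x
  unfold sd
  rcases lt_or_gt_of_ne hx with h | h
  · rw [if_pos h.le, if_neg]
    intro h'
    linarith
  · rw [if_neg (not_le.2 h), if_pos (by linarith)]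
    ring

theorem sd_sq (n : E3) (c : ℝ) (x : E3) : (sd n c x) ^ 2 = 1 := by
  unfold sd
  split_ifs <;> norm_num

theorem der_formula (n : E3) (c δ : ℝ) (hδ : 0 < δ) (u v : E3 → ℝ) (x : E3) (e : ℝ)
    (hu : DifferentiableAt ℝ u x) (hv : DifferentiableAt ℝ v x) (g : E3 → ℝ)
    (hg : ∀ᶠ y in 𝓝 x, g y = (u y + v y) / 2 + e * kk δ (u y - v y) / 2) :
    fderiv ℝ g x = (1/2 : ℝ) • (fderiv ℝ u x + fderiv ℝ v x)
      + ((e * ((u x - v x) / Real.sqrt ((u x - v x) ^ 2 + δ ^ 2))) / 2) •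
        (fderiv ℝ u x - fderiv ℝ v x) := by
  have h1 : HasFDerivAt (fun y => (u y + v y) / 2) ((1/2 : ℝ) • (fderiv ℝ u x + fderiv ℝ v x)) x := by
    have := (hu.hasFDerivAt.add hv.hasFDerivAt).const_smul (1/2 : ℝ)
    refine this.congr_of_eventuallyEq (Filter.Eventually.of_forall fun y => ?_)
    simp only [Pi.smul_apply, Pi.add_apply, smul_eq_mul]
    ring
  have h2 : HasFDerivAt (fun y => kk δ (u y - v y))
      (((u x - v x) / Real.sqrt ((u x - v x) ^ 2 + δ ^ 2)) • (fderiv ℝ u x - fderiv ℝ v x)) x := by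
    have hk := kk_hasDeriv δ (u x - v x) hδ
    exact hk.comp_hasFDerivAt x (hu.hasFDerivAt.sub hv.hasFDerivAt)
  have h3 := h1.add (h2.const_smul (e / 2))
  have h4 : HasFDerivAt g ((1/2 : ℝ) • (fderiv ℝ u x + fderiv ℝ v x) + (e / 2) •
      (((u x - v x) / Real.sqrt ((u x - v x) ^ 2 + δ ^ 2)) • (fderiv ℝ u x - fderiv ℝ v x))) x := by
    refine h3.congr_of_eventuallyEq ?_
    filter_upwards [hg] with y hy
    rw [hy]
    simp only [Pi.smul_apply, Pi.add_apply, smul_eq_mul]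
    ring
  rw [h4.fderiv, smul_smul]
  congr 2
  ring

/-- reflection as a homeomorphism -/
noncomputable def reflH (n : E3) (c : ℝ) (hn : ‖n‖ = 1) : E3 ≃ₜ E3 where
  toFun := refl n c
  invFun := refl n c
  left_inv := refl_refl n c hn
  right_inv := refl_refl n c hn
  continuous_toFun := (contDiff_refl n c).continuous
  continuous_invFun := (contDiff_refl n c).continuous

theorem pt_main (n : E3) (c δ : ℝ) (hn : ‖n‖ = 1) (hδ : 0 < δ) (u : E3 → ℝ)
    (hu : ContDiff ℝ 1 u) (x : E3) (hx : inner ℝ n x ≠ c) :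
    ‖fderiv ℝ (gg n c δ u) x‖ ^ 2 + ‖fderiv ℝ (gg n c δ u) (refl n c x)‖ ^ 2 ≤
      ‖fderiv ℝ u x‖ ^ 2 + ‖fderiv ℝ u (refl n c x)‖ ^ 2 := by
  have hcr : ContDiff ℝ 1 (refl n c) := (contDiff_refl n c).of_le le_top
  have hv : ContDiff ℝ 1 (fun y => u (refl n c y)) := hu.comp hcr
  rw [← norm_fderiv_comp_refl n c hn u hu x,
    ← norm_fderiv_comp_refl n c hn (gg n c δ u) (gg_contDiff n c δ hn hδ u hu) x]
  have hux : DifferentiableAt ℝ u x := (hu.differentiable (by norm_num)).differentiableAt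
  have hvx : DifferentiableAt ℝ (fun y => u (refl n c y)) x :=
    (hv.differentiable (by norm_num)).differentiableAt
  have hcont : Continuous (fun y : E3 => inner ℝ n y) := by fun_prop
  have hne : ∀ᶠ y in 𝓝 x, inner ℝ n y ≠ c := hcont.continuousAt.eventually_ne hx
  have hg1 : ∀ᶠ y in 𝓝 x, gg n c δ u y =
      (u y + (fun z => u (refl n c z)) y) / 2
        + sd n c x * kk δ (u y - (fun z => u (refl n c z)) y) / 2 := by
    filter_upwards [sd_loc n c x hx] with y hy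
    unfold gg
    rw [hy]
  have hg2 : ∀ᶠ y in 𝓝 x, (fun z => gg n c δ u (refl n c z)) y =
      (u y + (fun z => u (refl n c z)) y) / 2
        + (-sd n c x) * kk δ (u y - (fun z => u (refl n c z)) y) / 2 := by
    filter_upwards [sd_loc n c x hx, hne] with y hy hyne
    simp only [gg]
    rw [sd_refl n c hn y hyne, hy, refl_refl n c hn y,
      show u (refl n c y) - u y = -(u y - u (refl n c y)) by ring, kk_even]
    ring
  rw [der_formula n c δ hδ u _ x (sd n c x) hux hvx _ hg1,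
    der_formula n c δ hδ u _ x (-sd n c x) hux hvx _ hg2]
  have hk := kk_deriv_le δ (u x - u (refl n c x)) hδ
  have hk2 : (sd n c x * ((u x - u (refl n c x)) /
      Real.sqrt ((u x - u (refl n c x)) ^ 2 + δ ^ 2))) ^ 2 ≤ 1 := by
    rw [mul_pow, sd_sq, one_mul]
    exact hk
  have := pt_ineq (fderiv ℝ u x) (fderiv ℝ (fun y => u (refl n c y)) x) _ hk2
  refine le_trans (le_of_eq ?_) this
  congr 3
  rw [neg_mul, neg_div, neg_smul, ← sub_eq_add_neg]

-- TARGET (prove this)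
theorem gg_grad (n : E3) (c δ : ℝ) (hn : ‖n‖ = 1) (hδ : 0 < δ) (u : E3 → ℝ)
    (hu : ContDiff ℝ 1 u) (hc : HasCompactSupport u) :
    ∫ x, ‖fderiv ℝ (gg n c δ u) x‖ ^ 2 ≤ ∫ x, ‖fderiv ℝ u x‖ ^ 2 := by
  have key : ∀ w : E3 → ℝ, ContDiff ℝ 1 w → HasCompactSupport w →
      Integrable (fun x => ‖fderiv ℝ w x‖ ^ 2) ∧
      Integrable (fun x => ‖fderiv ℝ w (refl n c x)‖ ^ 2) := by
    intro w hw hwc
    have hcont : Continuous (fun x => ‖fderiv ℝ w x‖ ^ 2) :=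
      ((hw.continuous_fderiv (by norm_num)).norm).pow 2
    have hcs : HasCompactSupport (fun x => ‖fderiv ℝ w x‖ ^ 2) := by
      have h1 : HasCompactSupport (fderiv ℝ w) := hwc.fderiv ℝ
      exact h1.comp_left (g := fun L : E3 →L[ℝ] ℝ => ‖L‖ ^ 2) (by simp)
    refine ⟨hcont.integrable_of_hasCompactSupport hcs, ?_⟩
    have hcont2 : Continuous (fun x => ‖fderiv ℝ w (refl n c x)‖ ^ 2) :=
      hcont.comp (contDiff_refl n c).continuous
    have hcs2 : HasCompactSupport (fun x => ‖fderiv ℝ w (refl n c x)‖ ^ 2) :=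
      hcs.comp_homeomorph (reflH n c hn)
    exact hcont2.integrable_of_hasCompactSupport hcs2
  obtain ⟨hg1, hg2⟩ := key (gg n c δ u) (gg_contDiff n c δ hn hδ u hu)
    (gg_compact n c δ hn hδ u hc)
  obtain ⟨hu1, hu2⟩ := key u hu hc
  have hae : ∀ᵐ x : E3, ‖fderiv ℝ (gg n c δ u) x‖ ^ 2 + ‖fderiv ℝ (gg n c δ u) (refl n c x)‖ ^ 2 ≤
      ‖fderiv ℝ u x‖ ^ 2 + ‖fderiv ℝ u (refl n c x)‖ ^ 2 := by
    have h0 : ∀ᵐ x : E3, inner ℝ n x ≠ c := by
      rw [ae_iff]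
      simpa using plane_null n c hn
    filter_upwards [h0] with x hx
    exact pt_main n c δ hn hδ u hu x hx
  have hint := integral_mono_ae (hg1.add hg2) (hu1.add hu2) hae
  rw [integral_add' hg1 hg2, integral_add' hu1 hu2] at hint
  have e1 := integral_refl n c hn (fun x => ‖fderiv ℝ (gg n c δ u) x‖ ^ 2)
  have e2 := integral_refl n c hn (fun x => ‖fderiv ℝ u x‖ ^ 2)
  rw [e1, e2] at hint
  linarith

end Pool.Agent.Helper985.Pol
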