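import Pool.Agent.Helper985.Pol.Defs

set_option autoImplicit false

open MeasureTheory
open scoped Topology

namespace Pool.Agent.Helper985.Pol

-- TARGET (prove this)
theorem kk_contDiff (δ : ℝ) (hδ : 0 < δ) (φ : E3 → ℝ)
    (hu : ContDiff ℝ 1 φ) : ContDiff ℝ 1 (fun x => kk δ (φ x)) := by
  unfold kk
  refine ContDiff.sub (ContDiff.sqrt ((hu.pow 2).add contDiff_const) ?_) contDiff_const
  intro x
  positivity

theorem kk_fderiv_aux (δ : ℝ) (hδ : 0 < δ) (φ : E3 → ℝ)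
    (hu : ContDiff ℝ 1 φ) (x : E3) :
    ‖fderiv ℝ (fun x => kk δ (φ x)) x‖ ≤ ‖fderiv ℝ φ x‖ := by
  have hpos : ∀ t : ℝ, 0 < t ^ 2 + δ ^ 2 := fun t => by positivity
  have hd : DifferentiableAt ℝ φ x := (hu.differentiable one_ne_zero) x
  have h1 : HasDerivAt (fun t : ℝ => kk δ t) (2 * φ x / (2 * Real.sqrt (φ x ^ 2 + δ ^ 2))) (φ x) := by
    unfold kk
    have h2 : HasDerivAt (fun t : ℝ => t ^ 2 + δ ^ 2) (2 * φ x) (φ x) := by
      have h3 := (hasDerivAt_pow 2 (φ x)).add_const (δ ^ 2)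
      simpa using h3
    exact (h2.sqrt (hpos _).ne').sub_const δ
  have h4 := h1.comp_hasFDerivAt x hd.hasFDerivAt
  have h5 : fderiv ℝ (fun x => kk δ (φ x)) x =
      (2 * φ x / (2 * Real.sqrt (φ x ^ 2 + δ ^ 2))) • fderiv ℝ φ x := h4.fderiv
  rw [h5, norm_smul]
  have h6 : ‖2 * φ x / (2 * Real.sqrt (φ x ^ 2 + δ ^ 2))‖ ≤ 1 := by
    rw [mul_div_mul_left _ _ two_ne_zero, norm_div, Real.norm_eq_abs, Real.norm_eq_abs,
      abs_of_pos (Real.sqrt_pos.mpr (hpos _)), div_le_one (Real.sqrt_pos.mpr (hpos _))]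
    apply Real.abs_le_sqrt
    nlinarith [sq_nonneg δ]
  calc _ ≤ 1 * ‖fderiv ℝ φ x‖ := mul_le_mul_of_nonneg_right h6 (norm_nonneg _)
    _ = _ := one_mul _

-- TARGET (prove this)
theorem kk_grad (δ : ℝ) (hδ : 0 < δ) (φ : E3 → ℝ)
    (hu : ContDiff ℝ 1 φ) (hc : HasCompactSupport φ) :
    ∫ x, ‖fderiv ℝ (fun x => kk δ (φ x)) x‖ ^ 2 ≤ ∫ x, ‖fderiv ℝ φ x‖ ^ 2 := by
  have key : ∀ ψ : E3 → ℝ, ContDiff ℝ 1 ψ → HasCompactSupport ψ →
      Integrable (fun x => ‖fderiv ℝ ψ x‖ ^ 2) := by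
    intro ψ h1 h2
    refine Continuous.integrable_of_hasCompactSupport ?_ ?_
    · exact ((h1.continuous_fderiv one_ne_zero).norm).pow 2
    · have h3 : HasCompactSupport (fderiv ℝ ψ) := h2.fderiv (𝕜 := ℝ)
      exact h3.comp_left (g := fun L => ‖L‖ ^ 2) (by simp)
  have hk0 : kk δ 0 = 0 := by
    unfold kk
    rw [zero_pow two_ne_zero, zero_add, Real.sqrt_sq hδ.le, sub_self]
  have hc2 : HasCompactSupport (fun x => kk δ (φ x)) := hc.comp_left (g := kk δ) hk0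
  refine integral_mono (key _ (kk_contDiff δ hδ φ hu) hc2) (key φ hu hc) ?_
  intro x
  exact pow_le_pow_left₀ (norm_nonneg _) (kk_fderiv_aux δ hδ φ hu x) 2

end Pool.Agent.Helper985.Pol
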