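import Pool.Agent.Helper985.Pol.M_refl_basic
import Pool.Agent.Helper985.Pol.Defs

set_option autoImplicit false

open MeasureTheory
open scoped Topology

namespace Pool.Agent.Helper985.Pol







theorem kk_zero_aux (t : ℝ) : kk 0 t = |t| := by
  unfold kk
  rw [zero_pow two_ne_zero, add_zero, sub_zero, Real.sqrt_sq_eq_abs]

theorem kk_cont_aux : Continuous (fun p : ℝ × ℝ => kk p.1 p.2) := by
  unfold kk
  fun_prop

theorem kk_bd_aux {δ : ℝ} (hδ : 0 ≤ δ) (t : ℝ) : 0 ≤ kk δ t ∧ kk δ t ≤ |t| := by
  unfold kk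
  constructor
  · have : δ ≤ Real.sqrt (t ^ 2 + δ ^ 2) := Real.le_sqrt_of_sq_le (by nlinarith [sq_nonneg t])
    linarith
  · have : Real.sqrt (t ^ 2 + δ ^ 2) ≤ |t| + δ := by
      rw [Real.sqrt_le_left (by positivity)]
      rw [← sq_abs t]
      nlinarith [abs_nonneg t, mul_nonneg (abs_nonneg t) hδ]
    linarith

theorem sd_abs_aux (n : E3) (c : ℝ) (x : E3) : |sd n c x| = 1 := by
  unfold sd
  split_ifs <;> simp

theorem gg_bd_aux (n : E3) (c : ℝ) (φ : E3 → ℝ) {δ : ℝ} (hδ : 0 ≤ δ) (x : E3) :
    |gg n c δ (fun y => kk δ (φ y)) x| ≤ |φ x| + |φ (refl n c x)| := by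
  obtain ⟨a, ha⟩ : ∃ a, a = kk δ (φ x) := ⟨_, rfl⟩
  obtain ⟨b, hb⟩ : ∃ b, b = kk δ (φ (refl n c x)) := ⟨_, rfl⟩
  have ha1 := kk_bd_aux hδ (φ x)
  have hb1 := kk_bd_aux hδ (φ (refl n c x))
  rw [← ha] at ha1
  rw [← hb] at hb1
  have hk := kk_bd_aux hδ (a - b)
  have h1 : |gg n c δ (fun y => kk δ (φ y)) x| ≤ (a + b) / 2 + kk δ (a - b) / 2 := by
    unfold gg
    simp only [← ha, ← hb]
    refine (abs_add_le _ _).trans ?_
    rw [abs_of_nonneg (by linarith : 0 ≤ (a + b) / 2), abs_div, abs_mul, sd_abs_aux, one_mul,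
      abs_of_nonneg hk.1, abs_of_pos (by norm_num : (0:ℝ) < 2)]
  have h2 : |a - b| ≤ a + b := by
    rw [abs_le]; constructor <;> linarith
  linarith

-- TARGET (prove this)
theorem lim_gg (n : E3) (c : ℝ) (hn : ‖n‖ = 1) (φ : E3 → ℝ) (hφ : Continuous φ)
    (hc : HasCompactSupport φ) (V : E3 → ℝ) (hV : LocallyIntegrable V) :
    Filter.Tendsto (fun δ : ℝ => ∫ x, V x * (gg n c δ (fun y => kk δ (φ y)) x) ^ 2) (𝓝[>] 0)
      (𝓝 (∫ x, V x * (pol n c φ x) ^ 2)) := by
  have hrc : Continuous (refl n c) := (contDiff_refl n c).continuous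
  let H : E3 ≃ₜ E3 :=
    { toFun := refl n c
      invFun := refl n c
      left_inv := refl_refl n c hn
      right_inv := refl_refl n c hn
      continuous_toFun := hrc
      continuous_invFun := hrc }
  have hcr : HasCompactSupport (fun x => φ (refl n c x)) := hc.comp_homeomorph H
  have hcs : HasCompactSupport (fun x => (|φ x| + |φ (refl n c x)|) ^ 2) := by
    have h1 : HasCompactSupport (fun x => |φ x|) := hc.comp_left (g := fun t : ℝ => |t|) abs_zero
    have h2 : HasCompactSupport (fun x => |φ (refl n c x)|) :=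
      hcr.comp_left (g := fun t : ℝ => |t|) abs_zero
    exact (h1.add h2).comp_left (g := fun t : ℝ => t ^ 2) (by norm_num)
  have hcont : Continuous (fun x => (|φ x| + |φ (refl n c x)|) ^ 2) :=
    (hφ.abs.add (hφ.comp hrc).abs).pow 2
  have hint : Integrable (fun x => (|φ x| + |φ (refl n c x)|) ^ 2 • V x) :=
    hV.integrable_smul_left_of_hasCompactSupport hcont hcs
  have hsdm : Measurable (sd n c) := by
    unfold sd
    refine Measurable.ite ?_ measurable_const measurable_const
    exact measurableSet_le (by fun_prop) measurable_const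
  have hkm : ∀ δ : ℝ, Continuous (kk δ) := fun δ =>
    kk_cont_aux.comp (continuous_const.prodMk continuous_id)
  refine tendsto_integral_filter_of_dominated_convergence
    (fun x => ‖(|φ x| + |φ (refl n c x)|) ^ 2 • V x‖) ?_ ?_ hint.norm ?_
  · refine Filter.Eventually.of_forall fun δ => ?_
    refine hV.aestronglyMeasurable.mul ?_
    have h1 : Continuous (fun x => kk δ (φ x)) := (hkm δ).comp hφ
    have h2 : Continuous (fun x => kk δ (φ (refl n c x))) := (hkm δ).comp (hφ.comp hrc)
    have h3 : Continuous (fun x => kk δ (kk δ (φ x) - kk δ (φ (refl n c x)))) :=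
      (hkm δ).comp (h1.sub h2)
    have h4 : Measurable (gg n c δ (fun y => kk δ (φ y))) := by
      unfold gg
      exact ((h1.measurable.add h2.measurable).div_const 2).add
        ((hsdm.mul h3.measurable).div_const 2)
    exact (h4.pow_const 2).aestronglyMeasurable
  · filter_upwards [self_mem_nhdsWithin] with δ hδ
    refine Filter.Eventually.of_forall fun x => ?_
    rw [norm_mul, norm_smul, mul_comm]
    refine mul_le_mul_of_nonneg_right ?_ (norm_nonneg _)
    have h1 := gg_bd_aux n c φ (le_of_lt hδ) x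
    rw [Real.norm_eq_abs, Real.norm_eq_abs, abs_pow, abs_pow]
    have h2 : |(|φ x| + |φ (refl n c x)|)| = |φ x| + |φ (refl n c x)| :=
      abs_of_nonneg (by positivity)
    rw [h2]
    exact pow_le_pow_left₀ (abs_nonneg _) h1 2
  · refine Filter.Eventually.of_forall fun x => ?_
    have h1 : Continuous (fun δ : ℝ => V x * (gg n c δ (fun y => kk δ (φ y)) x) ^ 2) := by
      have c1 : Continuous (fun δ : ℝ => kk δ (φ x)) :=
        kk_cont_aux.comp (continuous_id.prodMk continuous_const)
      have c2 : Continuous (fun δ : ℝ => kk δ (φ (refl n c x))) :=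
        kk_cont_aux.comp (continuous_id.prodMk continuous_const)
      have c3 : Continuous (fun δ : ℝ => kk δ (kk δ (φ x) - kk δ (φ (refl n c x)))) :=
        kk_cont_aux.comp (continuous_id.prodMk (c1.sub c2))
      have c4 : Continuous (fun δ : ℝ => gg n c δ (fun y => kk δ (φ y)) x) := by
        unfold gg
        exact ((c1.add c2).div_const 2).add ((continuous_const.mul c3).div_const 2)
      exact continuous_const.mul (c4.pow 2)
    have h2 := (h1.tendsto 0).mono_left (nhdsWithin_le_nhds (s := Set.Ioi 0))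
    have h3 : gg n c 0 (fun y => kk 0 (φ y)) x = pol n c φ x := by
      unfold gg pol sd
      simp only [kk_zero_aux]
      split_ifs with h
      · rcases le_total |φ x| |φ (refl n c x)| with h4 | h4
        · rw [max_eq_right h4, abs_of_nonpos (show |φ x| - |φ (refl n c x)| ≤ 0 by linarith)]; ring
        · rw [max_eq_left h4, abs_of_nonneg (show 0 ≤ |φ x| - |φ (refl n c x)| by linarith)]; ring
      · rcases le_total |φ x| |φ (refl n c x)| with h4 | h4
        · rw [min_eq_left h4, abs_of_nonpos (show |φ x| - |φ (refl n c x)| ≤ 0 by linarith)]; ring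
        · rw [min_eq_right h4, abs_of_nonneg (show 0 ≤ |φ x| - |φ (refl n c x)| by linarith)]; ring
    rw [h3] at h2
    exact h2

end Pool.Agent.Helper985.Pol
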