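import Pool.Agent.Helper985.Pol.M_refl_basic
import Pool.Agent.Helper985.Pol.M_refl_meas
import Pool.Agent.Helper985.Pol.Defs

set_option autoImplicit false

open MeasureTheory
open scoped Topology

namespace Pool.Agent.Helper985.Pol










theorem pol_int_ge_integr {w : E3 → ℝ} (hw : Rad w) (s : E3) (g : E3 → ℝ) (hg : Measurable g)
    (C : ℝ) (hC : ∀ x, ‖g x‖ ≤ C) (K : Set E3) (hK : IsCompact K) (hgK : ∀ x, x ∉ K → g x = 0) :
    Integrable (fun x => w (x - s) * g x) := by
  have h1 : IntegrableOn (fun x => w (x - s)) K := by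
    have hK' : IsCompact ((fun x => x - s) '' K) := hK.image (continuous_id.sub continuous_const)
    have h2 := hw.li.integrableOn_isCompact hK'
    have h3 := ((measurePreserving_sub_right (volume : Measure E3) s).integrableOn_comp_preimage
      (MeasurableEquiv.subRight s).measurableEmbedding).2 h2
    exact h3.mono_set (fun x hx => ⟨x, hx, rfl⟩)
  have h2 : Integrable (K.indicator (fun x => w (x - s))) :=
    (integrable_indicator_iff hK.isClosed.measurableSet).2 h1
  have h3 := h2.mul_bdd (c := C) hg.aestronglyMeasurable (Filter.Eventually.of_forall hC)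
  refine h3.congr (Filter.Eventually.of_forall fun x => ?_)
  by_cases hx : x ∈ K
  · simp only [Set.indicator_of_mem hx]
  · simp only [Set.indicator_of_notMem hx, hgK x hx, mul_zero]

theorem pol_int_ge_symm (n : E3) (c : ℝ) (hn : ‖n‖ = 1) (u v : E3 → ℝ) (hu : Integrable u)
    (hv : Integrable v) (hu' : Integrable (fun x => u (refl n c x)))
    (hv' : Integrable (fun x => v (refl n c x)))
    (h : ∀ᵐ x : E3, u x + u (refl n c x) ≤ v x + v (refl n c x)) : ∫ x, u x ≤ ∫ x, v x := by
  have h1 : ∫ x, (u x + u (refl n c x)) ≤ ∫ x, (v x + v (refl n c x)) :=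
    integral_mono_ae (hu.add hu') (hv.add hv') h
  rw [integral_add hu hu', integral_add hv hv', integral_refl n c hn u,
    integral_refl n c hn v] at h1
  linarith

/-- values of the polarization -/
theorem pol_int_ge_val (n : E3) (c : ℝ) (hn : ‖n‖ = 1) (φ : E3 → ℝ) (x : E3)
    (hx : inner ℝ n x < c) : pol n c φ x ^ 2 = max (φ x ^ 2) (φ (refl n c x) ^ 2) ∧
      pol n c φ (refl n c x) ^ 2 = min (φ x ^ 2) (φ (refl n c x) ^ 2) := by
  have h1 : ¬ inner ℝ n (refl n c x) ≤ c := by
    have := inner_refl n c hn x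
    intro h
    linarith
  constructor
  · unfold pol
    rw [if_pos hx.le]
    rcases le_total |φ x| |φ (refl n c x)| with h | h
    · have h2 : φ x ^ 2 ≤ φ (refl n c x) ^ 2 := sq_le_sq.2 h
      rw [max_eq_right h, max_eq_right h2, sq_abs]
    · have h2 : φ (refl n c x) ^ 2 ≤ φ x ^ 2 := sq_le_sq.2 h
      rw [max_eq_left h, max_eq_left h2, sq_abs]
  · unfold pol
    rw [if_neg h1, refl_refl n c hn]
    rcases le_total |φ x| |φ (refl n c x)| with h | h
    · have h2 : φ x ^ 2 ≤ φ (refl n c x) ^ 2 := sq_le_sq.2 h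
      rw [min_eq_right h, min_eq_left h2, sq_abs]
    · have h2 : φ (refl n c x) ^ 2 ≤ φ x ^ 2 := sq_le_sq.2 h
      rw [min_eq_left h, min_eq_right h2, sq_abs]

theorem pol_int_ge_alg (A B a b : ℝ) (h : B ≤ A) :
    A * a + B * b ≤ A * max a b + B * min a b ∧ B * a + A * b ≤ A * max a b + B * min a b := by
  rcases le_total a b with h1 | h1
  · rw [max_eq_right h1, min_eq_left h1]
    constructor <;> nlinarith
  · rw [max_eq_left h1, min_eq_right h1]
    constructor <;> nlinarith

theorem pol_int_ge_norm (n : E3) (c : ℝ) (hn : ‖n‖ = 1) (x r : E3) :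
    ‖refl n c x - r‖ = ‖x - refl n c r‖ := by
  have := norm_refl_sub n c hn x (refl n c r)
  rw [refl_refl n c hn r] at this
  exact this

/-- pointwise comparison on the good side -/
theorem pol_int_ge_pt (n : E3) (c : ℝ) (hn : ‖n‖ = 1) (φ : E3 → ℝ) (w : E3 → ℝ) (hw : Rad w)
    (r : E3) (hr : inner ℝ n r ≤ c) (x : E3) (hx : inner ℝ n x < c) (hxr : x ≠ r) :
    w (x - r) * φ x ^ 2 + w (refl n c x - r) * φ (refl n c x) ^ 2 ≤
        w (x - r) * pol n c φ x ^ 2 + w (refl n c x - r) * pol n c φ (refl n c x) ^ 2 ∧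
      w (x - refl n c r) * φ x ^ 2 + w (refl n c x - refl n c r) * φ (refl n c x) ^ 2 ≤
        w (x - r) * pol n c φ x ^ 2 + w (refl n c x - r) * pol n c φ (refl n c x) ^ 2 := by
  obtain ⟨h1, h2⟩ := pol_int_ge_val n c hn φ x hx
  have h3 : w (refl n c x - r) ≤ w (x - r) :=
    hw.mono _ _ (sub_ne_zero.2 hxr) (dist_refl_ge n c hn x r hx.le hr)
  have h4 : w (x - refl n c r) = w (refl n c x - r) :=
    hw.rad _ _ (pol_int_ge_norm n c hn x r).symm
  have h5 : w (refl n c x - refl n c r) = w (x - r) := hw.rad _ _ (norm_refl_sub n c hn x r)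
  rw [h1, h2, h4, h5]
  exact pol_int_ge_alg _ _ _ _ h3

theorem pol_int_ge_ae (n : E3) (c : ℝ) (hn : ‖n‖ = 1) (φ : E3 → ℝ) (w : E3 → ℝ) (hw : Rad w)
    (r : E3) (hr : inner ℝ n r ≤ c) : ∀ᵐ x : E3,
    w (x - r) * φ x ^ 2 + w (refl n c x - r) * φ (refl n c x) ^ 2 ≤
        w (x - r) * pol n c φ x ^ 2 + w (refl n c x - r) * pol n c φ (refl n c x) ^ 2 ∧
      w (x - refl n c r) * φ x ^ 2 + w (refl n c x - refl n c r) * φ (refl n c x) ^ 2 ≤
        w (x - r) * pol n c φ x ^ 2 + w (refl n c x - r) * pol n c φ (refl n c x) ^ 2 := by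
  have a1 : ∀ᵐ x : E3, x ∉ {x : E3 | inner ℝ n x = c} :=
    (measure_eq_zero_iff_ae_notMem).1 (plane_null n c hn)
  have a2 : ∀ᵐ x : E3, x ∉ ({r, refl n c r} : Set E3) :=
    (measure_eq_zero_iff_ae_notMem).1 ((Set.toFinite _).measure_zero _)
  filter_upwards [a1, a2] with x h1 h2
  have h2' : x ≠ r ∧ x ≠ refl n c r := by
    simpa only [Set.mem_insert_iff, Set.mem_singleton_iff, not_or] using h2
  have h1' : inner ℝ n x ≠ c := h1
  rcases lt_or_gt_of_ne h1' with h | h
  · exact pol_int_ge_pt n c hn φ w hw r hr x h h2'.1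
  · have h3 : inner ℝ n (refl n c x) < c := by
      have := inner_refl n c hn x
      linarith
    have h4 : refl n c x ≠ r := by
      intro h5
      apply h2'.2
      rw [← h5, refl_refl n c hn]
    have := pol_int_ge_pt n c hn φ w hw r hr (refl n c x) h3 h4
    rw [refl_refl n c hn x] at this
    constructor <;> linarith [this.1, this.2]

theorem pol_int_ge_setup (n : E3) (c : ℝ) (hn : ‖n‖ = 1) (φ : E3 → ℝ) (hφ : Continuous φ)
    (hc : HasCompactSupport φ) : ∃ (C : ℝ) (K : Set E3), IsCompact K ∧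
      (∀ x, x ∉ K → φ x = 0 ∧ φ (refl n c x) = 0) ∧
      (∀ x, ‖φ x ^ 2‖ ≤ C) ∧ (∀ x, ‖pol n c φ x ^ 2‖ ≤ C) ∧
      (∀ x, x ∉ K → pol n c φ x ^ 2 = 0 ∧ pol n c φ (refl n c x) ^ 2 = 0) ∧
      Measurable (pol n c φ) := by
  obtain ⟨C, hC⟩ := hc.exists_bound_of_continuous hφ
  have hσ : Continuous (refl n c) := (contDiff_refl n c).continuous
  have hC0 : 0 ≤ C := (norm_nonneg _).trans (hC 0)
  have hz : ∀ x, x ∉ tsupport φ ∪ refl n c '' tsupport φ → φ x = 0 ∧ φ (refl n c x) = 0 := by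
    intro x hx
    rw [Set.mem_union, not_or] at hx
    refine ⟨image_eq_zero_of_notMem_tsupport hx.1, image_eq_zero_of_notMem_tsupport fun h => ?_⟩
    exact hx.2 ⟨_, h, refl_refl n c hn x⟩
  refine ⟨C ^ 2, tsupport φ ∪ refl n c '' tsupport φ, hc.isCompact.union (hc.isCompact.image hσ),
    hz, ?_, ?_, ?_, ?_⟩
  · intro x
    rw [norm_pow]
    exact pow_le_pow_left₀ (norm_nonneg _) (hC x) 2
  · intro x
    rw [norm_pow]
    apply pow_le_pow_left₀ (norm_nonneg _)
    unfold pol
    have e1 : |φ x| ≤ C := hC x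
    have e2 : |φ (refl n c x)| ≤ C := hC _
    split_ifs
    · rw [Real.norm_eq_abs, abs_of_nonneg (le_max_of_le_left (abs_nonneg _))]
      exact max_le e1 e2
    · rw [Real.norm_eq_abs, abs_of_nonneg (le_min (abs_nonneg _) (abs_nonneg _))]
      exact (min_le_left _ _).trans e1
  · intro x hx
    obtain ⟨h1, h2⟩ := hz x hx
    constructor
    · unfold pol
      rw [h1, h2]
      simp
    · unfold pol
      rw [refl_refl n c hn, h1, h2]
      simp
  · unfold pol
    apply Measurable.ite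
    · exact (isClosed_le (continuous_const.inner continuous_id) continuous_const).measurableSet
    · exact (hφ.abs.max (hφ.comp hσ).abs).measurable
    · exact (hφ.abs.min (hφ.comp hσ).abs).measurable

-- TARGET (prove this)
theorem pol_int_ge (n : E3) (c : ℝ) (hn : ‖n‖ = 1) (φ : E3 → ℝ) (hφ : Continuous φ)
    (hc : HasCompactSupport φ) (w : E3 → ℝ) (hw : Rad w) (r : E3) (hr : inner ℝ n r ≤ c) :
    ∫ x, w (x - r) * φ x ^ 2 ≤ ∫ x, w (x - r) * (pol n c φ x) ^ 2 := by
  obtain ⟨C, K, hK, hz, hb1, hb2, hz2, hm⟩ := pol_int_ge_setup n c hn φ hφ hc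
  have hσ : Continuous (refl n c) := (contDiff_refl n c).continuous
  refine pol_int_ge_symm n c hn _ _ ?_ ?_ ?_ ?_ ?_
  · exact pol_int_ge_integr hw r _ (hφ.pow 2).measurable C hb1 K hK
      (fun x hx => by rw [(hz x hx).1]; simp)
  · exact pol_int_ge_integr hw r _ (hm.pow_const 2) C hb2 K hK (fun x hx => (hz2 x hx).1)
  · have := pol_int_ge_integr hw (refl n c r) (fun x => φ (refl n c x) ^ 2)
      ((hφ.comp hσ).pow 2).measurable C (fun x => hb1 _) K hK
      (fun x hx => by rw [(hz x hx).2]; simp)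
    refine this.congr (Filter.Eventually.of_forall fun x => ?_)
    simp only
    rw [hw.rad _ _ (pol_int_ge_norm n c hn x r)]
  · have := pol_int_ge_integr hw (refl n c r) (fun x => pol n c φ (refl n c x) ^ 2)
      ((hm.comp hσ.measurable).pow_const 2) C (fun x => hb2 _) K hK
      (fun x hx => (hz2 x hx).2)
    refine this.congr (Filter.Eventually.of_forall fun x => ?_)
    simp only
    rw [hw.rad _ _ (pol_int_ge_norm n c hn x r)]
  · filter_upwards [pol_int_ge_ae n c hn φ w hw r hr] with x hx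
    exact hx.1

-- TARGET (prove this)
theorem pol_int_ge_refl (n : E3) (c : ℝ) (hn : ‖n‖ = 1) (φ : E3 → ℝ) (hφ : Continuous φ)
    (hc : HasCompactSupport φ) (w : E3 → ℝ) (hw : Rad w) (r : E3) (hr : inner ℝ n r ≤ c) :
    ∫ x, w (x - refl n c r) * φ x ^ 2 ≤ ∫ x, w (x - r) * (pol n c φ x) ^ 2 := by
  obtain ⟨C, K, hK, hz, hb1, hb2, hz2, hm⟩ := pol_int_ge_setup n c hn φ hφ hc
  have hσ : Continuous (refl n c) := (contDiff_refl n c).continuous
  refine pol_int_ge_symm n c hn _ _ ?_ ?_ ?_ ?_ ?_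
  · exact pol_int_ge_integr hw (refl n c r) _ (hφ.pow 2).measurable C hb1 K hK
      (fun x hx => by rw [(hz x hx).1]; simp)
  · exact pol_int_ge_integr hw r _ (hm.pow_const 2) C hb2 K hK (fun x hx => (hz2 x hx).1)
  · have := pol_int_ge_integr hw r (fun x => φ (refl n c x) ^ 2)
      ((hφ.comp hσ).pow 2).measurable C (fun x => hb1 _) K hK
      (fun x hx => by rw [(hz x hx).2]; simp)
    refine this.congr (Filter.Eventually.of_forall fun x => ?_)
    simp only
    rw [hw.rad _ _ (norm_refl_sub n c hn x r)]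
  · have := pol_int_ge_integr hw (refl n c r) (fun x => pol n c φ (refl n c x) ^ 2)
      ((hm.comp hσ.measurable).pow_const 2) C (fun x => hb2 _) K hK
      (fun x hx => (hz2 x hx).2)
    refine this.congr (Filter.Eventually.of_forall fun x => ?_)
    simp only
    rw [hw.rad _ _ (pol_int_ge_norm n c hn x r)]
  · filter_upwards [pol_int_ge_ae n c hn φ w hw r hr] with x hx
    exact hx.2

end Pool.Agent.Helper985.Pol
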