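import Pool.Agent.Helper985.Pol.M_refl_basic
import Pool.Agent.Helper985.Pol.M_refl_meas
import Pool.Agent.Helper985.Pol.Defs

set_option autoImplicit false

open MeasureTheory
open scoped Topology

namespace Pool.Agent.Helper985.Pol









theorem pol_norm_mxmn (a b : ℝ) : (max |a| |b|) ^ 2 + (min |b| |a|) ^ 2 = a ^ 2 + b ^ 2 := by
  rcases le_total |a| |b| with h | h
  · rw [max_eq_right h, min_eq_right h, sq_abs, sq_abs]
    ring
  · rw [max_eq_left h, min_eq_left h, sq_abs, sq_abs]

theorem pol_norm_le (n : E3) (c : ℝ) (φ : E3 → ℝ) (x : E3) :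
    (pol n c φ x) ^ 2 ≤ φ x ^ 2 + φ (refl n c x) ^ 2 := by
  unfold pol
  have ha := sq_nonneg (φ x)
  have hb := sq_nonneg (φ (refl n c x))
  split_ifs
  · rcases le_total |φ x| |φ (refl n c x)| with h | h
    · rw [max_eq_right h, sq_abs]
      linarith
    · rw [max_eq_left h, sq_abs]
      linarith
  · rcases le_total |φ x| |φ (refl n c x)| with h | h
    · rw [min_eq_left h, sq_abs]
      linarith
    · rw [min_eq_right h, sq_abs]
      linarith

theorem pol_norm_cont (n : E3) (c : ℝ) : Continuous (refl n c) := (contDiff_refl n c).continuous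

theorem pol_norm_meas (n : E3) (c : ℝ) (φ : E3 → ℝ) (hφ : Continuous φ) :
    Measurable (fun x => (pol n c φ x) ^ 2) := by
  have h1 : MeasurableSet {x : E3 | inner ℝ n x ≤ c} :=
    (isClosed_le (continuous_const.inner continuous_id) continuous_const).measurableSet
  have h2 : Continuous (fun x => φ (refl n c x)) := hφ.comp (pol_norm_cont n c)
  have h3 : Measurable (pol n c φ) := by
    unfold pol
    exact Measurable.ite h1 (hφ.abs.max h2.abs).measurable (hφ.abs.min h2.abs).measurable
  exact h3.pow_const 2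

theorem pol_norm_int0 (ψ : E3 → ℝ) (hψ : Continuous ψ) (hc : HasCompactSupport ψ) :
    Integrable (fun x => ψ x ^ 2) := by
  have h1 : HasCompactSupport (fun x => ψ x * ψ x) := hc.mul_left
  have h2 : (fun x => ψ x ^ 2) = fun x => ψ x * ψ x := by
    funext x
    rw [sq]
  rw [h2]
  exact (hψ.mul hψ).integrable_of_hasCompactSupport h1

theorem pol_norm_int (n : E3) (c : ℝ) (hn : ‖n‖ = 1) (φ : E3 → ℝ) (hφ : Continuous φ)
    (hc : HasCompactSupport φ) :
    Integrable (fun x => φ x ^ 2) ∧ Integrable (fun x => φ (refl n c x) ^ 2) := by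
  have hiso : Isometry (refl n c) := by
    apply Isometry.of_dist_eq
    intro x y
    rw [dist_eq_norm, dist_eq_norm]
    exact norm_refl_sub n c hn x y
  have hc2 : HasCompactSupport (φ ∘ refl n c) :=
    hc.comp_isClosedEmbedding hiso.isClosedEmbedding
  exact ⟨pol_norm_int0 φ hφ hc, pol_norm_int0 (φ ∘ refl n c) (hφ.comp (pol_norm_cont n c)) hc2⟩

theorem pol_norm_sum (n : E3) (c : ℝ) (hn : ‖n‖ = 1) (φ : E3 → ℝ) (x : E3)
    (hx : inner ℝ n x ≠ c) :
    (pol n c φ x) ^ 2 + (pol n c φ (refl n c x)) ^ 2 = φ x ^ 2 + φ (refl n c x) ^ 2 := by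
  have h1 := inner_refl n c hn x
  have h2 := refl_refl n c hn x
  rcases lt_or_gt_of_ne hx with h | h
  · have ha : inner ℝ n x ≤ c := h.le
    have hb : ¬ inner ℝ n (refl n c x) ≤ c := by
      push Not
      linarith
    unfold pol
    rw [if_pos ha, if_neg hb, h2]
    exact pol_norm_mxmn _ _
  · have ha : ¬ inner ℝ n x ≤ c := not_le.2 h
    have hb : inner ℝ n (refl n c x) ≤ c := by
      linarith
    unfold pol
    rw [if_neg ha, if_pos hb, h2, add_comm, pol_norm_mxmn]
    ring

-- TARGET (prove this)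
theorem pol_norm (n : E3) (c : ℝ) (hn : ‖n‖ = 1) (φ : E3 → ℝ) (hφ : Continuous φ)
    (hc : HasCompactSupport φ) :
    ∫ x, (pol n c φ x) ^ 2 = ∫ x, φ x ^ 2 := by
  obtain ⟨hG, hG'⟩ := pol_norm_int n c hn φ hφ hc
  have hF : Integrable (fun x => (pol n c φ x) ^ 2) := by
    apply Integrable.mono' (hG.add hG') (pol_norm_meas n c φ hφ).aestronglyMeasurable
    refine Filter.Eventually.of_forall (fun x => ?_)
    rw [Real.norm_eq_abs, abs_of_nonneg (sq_nonneg _)]
    exact pol_norm_le n c φ x
  have hF' : Integrable (fun x => (pol n c φ (refl n c x)) ^ 2) := by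
    apply Integrable.mono' (hG'.add hG)
      ((pol_norm_meas n c φ hφ).comp (pol_norm_cont n c).measurable).aestronglyMeasurable
    refine Filter.Eventually.of_forall (fun x => ?_)
    rw [Real.norm_eq_abs, abs_of_nonneg (sq_nonneg _)]
    have := pol_norm_le n c φ (refl n c x)
    rw [refl_refl n c hn x] at this
    exact this
  have h1 : ∫ x, ((pol n c φ x) ^ 2 + (pol n c φ (refl n c x)) ^ 2) =
      ∫ x, (φ x ^ 2 + φ (refl n c x) ^ 2) := by
    apply integral_congr_ae
    have h2 : ∀ᵐ x : E3, ¬ (inner ℝ n x = c) := by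
      rw [ae_iff]
      simpa using plane_null n c hn
    filter_upwards [h2] with x hx
    exact pol_norm_sum n c hn φ x hx
  rw [integral_add hF hF', integral_add hG hG',
    integral_refl n c hn (fun x => (pol n c φ x) ^ 2),
    integral_refl n c hn (fun x => φ x ^ 2)] at h1
  linarith

end Pool.Agent.Helper985.Pol
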