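import Pool.Agent.Helper985.Pol.M_gg_compact
import Pool.Agent.Helper985.Pol.M_gg_contDiff
import Pool.Agent.Helper985.Pol.M_gg_grad
import Pool.Agent.Helper985.Pol.M_kk_both
import Pool.Agent.Helper985.Pol.M_lim_gg
import Pool.Agent.Helper985.Pol.M_pol_ge
import Pool.Agent.Helper985.Pol.M_pol_norm
import Pool.Agent.Helper985.Pol.M_refl_basic
import Pool.Agent.Helper985.Pol.Defs

set_option autoImplicit false

open MeasureTheory
open scoped Topology

namespace Pool.Agent.Helper985.Pol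

















theorem locInt_translate (f : E3 → ℝ) (hf : LocallyIntegrable f) (r : E3) :
    LocallyIntegrable (fun x => f (x - r)) := by
  rw [locallyIntegrable_iff] at hf ⊢
  intro K hK
  have hK' : IsCompact ((fun x : E3 => x - r) '' K) := hK.image (by fun_prop)
  have h := hf _ hK'
  have hmp : MeasurePreserving (fun x : E3 => x - r) volume volume := measurePreserving_sub_right volume r
  have hme : MeasurableEmbedding (fun x : E3 => x - r) :=
    (Homeomorph.subRight r).measurableEmbedding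
  have h2 := (hmp.integrableOn_comp_preimage hme).2 h
  rw [Set.preimage_image_eq _ hme.injective] at h2
  exact h2

noncomputable def reflHP (n : E3) (c : ℝ) (hn : ‖n‖ = 1) : E3 ≃ₜ E3 where
  toFun := refl n c
  invFun := refl n c
  left_inv := refl_refl n c hn
  right_inv := refl_refl n c hn
  continuous_toFun := (contDiff_refl n c).continuous
  continuous_invFun := (contDiff_refl n c).continuous

theorem pol_cont (n : E3) (c : ℝ) (φ : E3 → ℝ) (hφ : Continuous φ) : Continuous (pol n c φ) := by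
  have hr : Continuous (refl n c) := (contDiff_refl n c).continuous
  unfold pol
  refine Continuous.if_le (by fun_prop) (by fun_prop) (by fun_prop) (by fun_prop) ?_
  intro x hx
  have : refl n c x = x := by
    unfold refl
    rw [hx]; simp
  rw [this]
  simp

theorem pol_comp (n : E3) (c : ℝ) (hn : ‖n‖ = 1) (φ : E3 → ℝ) (hc : HasCompactSupport φ) :
    HasCompactSupport (fun x => pol n c φ x ^ 2) := by
  have h2 : HasCompactSupport (fun x => φ (refl n c x)) := hc.comp_homeomorph (reflHP n c hn)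
  have h3 : HasCompactSupport (fun x => |φ x| + |φ (refl n c x)|) := by
    apply HasCompactSupport.add
    · exact hc.comp_left (g := fun t => |t|) (by simp)
    · exact h2.comp_left (g := fun t => |t|) (by simp)
  refine h3.mono ?_
  intro x hx
  simp only [Function.mem_support] at hx ⊢
  intro h0
  apply hx
  have h1 : |φ x| = 0 := by linarith [abs_nonneg (φ x), abs_nonneg (φ (refl n c x))]
  have h4 : |φ (refl n c x)| = 0 := by linarith [abs_nonneg (φ x), abs_nonneg (φ (refl n c x))]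
  unfold pol
  rw [h1, h4]
  simp

theorem int_term (w : E3 → ℝ) (hw : LocallyIntegrable w) (r : E3) (g : E3 → ℝ)
    (hg : Continuous g) (hc : HasCompactSupport g) : Integrable (fun x => w (x - r) * g x) := by
  have := (locInt_translate w hw r).integrable_smul_left_of_hasCompactSupport hg hc
  refine this.congr (Filter.Eventually.of_forall fun x => ?_)
  simp [mul_comm]

theorem int_cmp {K : ℕ} (W : Fin K → E3 → ℝ) (hW : ∀ j, Rad (W j)) (n : E3) (c : ℝ)
    (hn : ‖n‖ = 1) (R R' : Fin K → E3) (hR : ∀ j, inner ℝ n (R j) ≤ c)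
    (hR' : ∀ j, R' j = R j ∨ R' j = refl n c (R j)) (φ : E3 → ℝ) (hφ : Continuous φ)
    (hc : HasCompactSupport φ) :
    ∫ x, (∑ j, W j (x - R' j)) * φ x ^ 2 ≤ ∫ x, (∑ j, W j (x - R j)) * pol n c φ x ^ 2 := by
  have hφ2 : Continuous (fun x => φ x ^ 2) := by fun_prop
  have hc2 : HasCompactSupport (fun x => φ x ^ 2) := hc.comp_left (g := fun t => t ^ 2) (by simp)
  have hp2 : Continuous (fun x => pol n c φ x ^ 2) := (pol_cont n c φ hφ).pow 2
  have hpc := pol_comp n c hn φ hc
  simp_rw [Finset.sum_mul]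
  rw [integral_finset_sum _ (fun j _ => int_term (W j) (hW j).li (R' j) _ hφ2 hc2),
    integral_finset_sum _ (fun j _ => int_term (W j) (hW j).li (R j) _ hp2 hpc)]
  refine Finset.sum_le_sum fun j _ => ?_
  rcases hR' j with h | h
  · rw [h]; exact pol_int_ge n c hn φ hφ hc (W j) (hW j) (R j) (hR j)
  · rw [h]; exact pol_int_ge_refl n c hn φ hφ hc (W j) (hW j) (R j) (hR j)

theorem en_le_scaled {K : ℕ} (W : Fin K → E3 → ℝ) (R : Fin K → E3) (g : E3 → ℝ)
    (hg : ContDiff ℝ 1 g) (hc : HasCompactSupport g) (m : ℝ) (hm : 0 < m)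
    (hint : ∫ x, g x ^ 2 = m) :
    en W R ≤ ((((∫ x, ‖fderiv ℝ g x‖ ^ 2) - ∫ x, (∑ j, W j (x - R j)) * g x ^ 2) / m : ℝ) : EReal) := by
  have hs : Real.sqrt m ^ 2 = m := Real.sq_sqrt hm.le
  have hs0 : Real.sqrt m ≠ 0 := (Real.sqrt_pos.2 hm).ne'
  set a : ℝ := (Real.sqrt m)⁻¹ with ha
  have ha2 : a ^ 2 = m⁻¹ := by rw [ha, inv_pow, hs]
  have hadm : Adm (fun x => a * g x) := by
    refine ⟨contDiff_const.mul hg, hc.mul_left, ?_⟩
    simp_rw [mul_pow]
    rw [integral_const_mul, hint, ha2, inv_mul_cancel₀ hm.ne']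
  have hle : en W R ≤ ((Q W R (fun x => a * g x) : ℝ) : EReal) :=
    iInf₂_le (fun x => a * g x) hadm
  refine hle.trans (le_of_eq ?_)
  congr 1
  unfold Q
  have h1 : ∀ x, ‖fderiv ℝ (fun x => a * g x) x‖ ^ 2 = a ^ 2 * ‖fderiv ℝ g x‖ ^ 2 := by
    intro x
    rw [fderiv_const_mul ((hg.differentiable one_ne_zero) x)]
    rw [norm_smul, mul_pow, Real.norm_eq_abs, sq_abs]
  simp_rw [h1]
  have h2 : ∀ x, (∑ j, W j (x - R j)) * (a * g x) ^ 2 = a ^ 2 * ((∑ j, W j (x - R j)) * g x ^ 2) := by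
    intro x; ring
  simp_rw [h2]
  rw [integral_const_mul, integral_const_mul, ha2]
  field_simp


-- TARGET (prove this)
/-- the polarization inequality for the energies -/
theorem polarize {K : ℕ} (W : Fin K → E3 → ℝ) (hW : ∀ j, Rad (W j)) (n : E3) (c : ℝ)
    (hn : ‖n‖ = 1) (R R' : Fin K → E3) (hR : ∀ j, inner ℝ n (R j) ≤ c)
    (hR' : ∀ j, R' j = R j ∨ R' j = refl n c (R j)) : en W R ≤ en W R' := by
  refine le_iInf₂ fun φ hφ => ?_
  obtain ⟨hφ1, hφc, hφn⟩ := hφ
  have hcont : Continuous φ := hφ1.continuous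
  have hVli : LocallyIntegrable (fun x : E3 => ∑ j, W j (x - R j)) := by
    have : ∀ s : Finset (Fin K), LocallyIntegrable (fun x : E3 => ∑ j ∈ s, W j (x - R j)) := by
      classical
      intro s
      induction s using Finset.induction_on with
      | empty => simpa using (locallyIntegrable_const (0 : ℝ))
      | insert a s ha ih =>
        simp_rw [Finset.sum_insert ha]
        exact (locInt_translate _ (hW a).li _).add ih
    exact this Finset.univ
  have t1 := lim_gg n c hn φ hcont hφc (fun x => ∑ j, W j (x - R j)) hVli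
  have t2 := lim_gg n c hn φ hcont hφc (fun _ => (1 : ℝ)) (locallyIntegrable_const 1)
  simp only [one_mul] at t2
  rw [pol_norm n c hn φ hcont hφc, hφn] at t2
  have t3 : Filter.Tendsto (fun δ : ℝ => ((∫ x, ‖fderiv ℝ φ x‖ ^ 2) -
      ∫ x, (∑ j, W j (x - R j)) * (gg n c δ (fun y => kk δ (φ y)) x) ^ 2) /
      (∫ x, (gg n c δ (fun y => kk δ (φ y)) x) ^ 2)) (𝓝[>] 0)
      (𝓝 (((∫ x, ‖fderiv ℝ φ x‖ ^ 2) - ∫ x, (∑ j, W j (x - R j)) * pol n c φ x ^ 2) / 1)) :=
    (tendsto_const_nhds.sub t1).div t2 one_ne_zero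
  have t4 := (continuous_coe_real_ereal.tendsto _).comp t3
  have hle : en W R ≤ ((((∫ x, ‖fderiv ℝ φ x‖ ^ 2) -
      ∫ x, (∑ j, W j (x - R j)) * pol n c φ x ^ 2) / 1 : ℝ) : EReal) := by
    refine ge_of_tendsto t4 ?_
    have hpos : ∀ᶠ δ : ℝ in 𝓝[>] 0, 0 < ∫ x, (gg n c δ (fun y => kk δ (φ y)) x) ^ 2 :=
      t2.eventually (lt_mem_nhds one_pos)
    filter_upwards [hpos, self_mem_nhdsWithin] with δ hδ hδ0
    have hδ0' : (0 : ℝ) < δ := hδ0
    have hkc : ContDiff ℝ 1 (fun x => kk δ (φ x)) := kk_contDiff δ hδ0' φ hφ1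
    have hkk0 : kk δ 0 = 0 := by
      unfold kk
      simp [Real.sqrt_sq hδ0'.le]
    have hks : HasCompactSupport (fun x => kk δ (φ x)) := hφc.comp_left (g := kk δ) hkk0
    have hg1 := gg_contDiff n c δ hn hδ0' _ hkc
    have hg2 := gg_compact n c δ hn hδ0' _ hks
    have hg3 := gg_grad n c δ hn hδ0' _ hkc hks
    have hg4 := kk_grad δ hδ0' φ hφ1 hφc
    refine (en_le_scaled W R _ hg1 hg2 _ hδ rfl).trans ?_
    simp only [Function.comp]
    rw [EReal.coe_le_coe_iff]
    apply div_le_div_of_nonneg_right _ hδ.le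
    have := hg3.trans hg4
    linarith
  refine hle.trans ?_
  rw [EReal.coe_le_coe_iff, div_one]
  unfold Q
  have := int_cmp W hW n c hn R R' hR hR' φ hcont hφc
  linarith

end Pool.Agent.Helper985.Pol
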