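import Pool.Agent.Helper985.Pol.M_en_isometry
import Pool.Agent.Helper985.Pol.M_exists_isometry
import Pool.Agent.Helper985.Pol.M_polarize
import Pool.Agent.Helper985.Pol.M_refl_basic
import Pool.Agent.Helper985.Pol.Defs

set_option autoImplicit false

open MeasureTheory
open scoped Topology

namespace Pool.Agent.Helper985.Pol






-- TARGET (prove this)
/-- one nucleus moves away from all the others -/
theorem single {K : ℕ} (W : Fin K → E3 → ℝ) (hW : ∀ j, Rad (W j)) (a : Fin K)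
    (R S : Fin K → E3)
    (h1 : ∀ i j, i ≠ a → j ≠ a → dist (R i) (R j) = dist (S i) (S j))
    (h2 : ∀ j, dist (R a) (R j) ≤ dist (S a) (S j)) : en W R ≤ en W S := by
  obtain ⟨T, hT⟩ := exists_isometry (fun i => i ≠ a) R S (fun i j hi hj => h1 i j hi hj)
  have hstep : en W R ≤ en W (fun j => T (R j)) := by
    have h := en_isometry W hW T.symm (fun j => T (R j))
    simpa using h
  refine hstep.trans ?_
  obtain ⟨p, hp⟩ : ∃ p, p = T (R a) := ⟨_, rfl⟩
  obtain ⟨q, hq⟩ : ∃ q, q = S a := ⟨_, rfl⟩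
  have hdist : ∀ j, j ≠ a → ‖S j - p‖ ≤ ‖S j - q‖ := by
    intro j hj
    have e1 : dist p (S j) = dist (R a) (R j) := by
      rw [hp, ← hT j hj]
      exact T.isometry.dist_eq _ _
    have e2 := h2 j
    rw [← e1, ← hq, dist_comm p, dist_comm q, dist_eq_norm, dist_eq_norm] at e2
    exact e2
  by_cases hpq : p = q
  · have : (fun j => T (R j)) = S := by
      funext j
      by_cases hj : j = a
      · rw [hj, ← hp, ← hq, hpq]
      · exact hT j hj
    rw [this]
  · obtain ⟨r, hr⟩ : ∃ r, r = ‖q - p‖ := ⟨_, rfl⟩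
    have hr0 : 0 < r := by
      rw [hr]
      exact norm_pos_iff.2 (sub_ne_zero.2 (fun h => hpq h.symm))
    have hr2 : r ^ 2 = ‖q‖ ^ 2 - 2 * inner ℝ q p + ‖p‖ ^ 2 := by
      rw [hr, norm_sub_sq_real]
    have hin : ∀ x : E3, inner ℝ (r⁻¹ • (q - p)) x = r⁻¹ * (inner ℝ q x - inner ℝ p x) := by
      intro x
      rw [real_inner_smul_left, inner_sub_left]
    have hn : ‖r⁻¹ • (q - p)‖ = 1 := by
      rw [norm_smul, norm_inv, Real.norm_eq_abs, abs_of_pos hr0, ← hr, inv_mul_cancel₀ hr0.ne']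
    have hnp : inner ℝ (r⁻¹ • (q - p)) p - r⁻¹ * ((‖q‖ ^ 2 - ‖p‖ ^ 2) / 2) = -(r / 2) := by
      rw [hin, real_inner_self_eq_norm_sq]
      have : r⁻¹ * (inner ℝ q p - ‖p‖ ^ 2) - r⁻¹ * ((‖q‖ ^ 2 - ‖p‖ ^ 2) / 2) =
          - (r⁻¹ * (r ^ 2) / 2) := by
        rw [hr2]
        ring
      rw [this]
      field_simp
    have hrefl : refl (r⁻¹ • (q - p)) (r⁻¹ * ((‖q‖ ^ 2 - ‖p‖ ^ 2) / 2)) p = q := by
      unfold refl
      rw [hnp, smul_smul]
      have : 2 * -(r / 2) * r⁻¹ = -1 := by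
        field_simp
      rw [this]
      module
    apply polarize W hW (r⁻¹ • (q - p)) (r⁻¹ * ((‖q‖ ^ 2 - ‖p‖ ^ 2) / 2)) hn
    · intro j
      by_cases hj : j = a
      · rw [hj, ← hp]
        linarith
      · show inner ℝ (r⁻¹ • (q - p)) (T (R j)) ≤ _
        rw [hT j hj, hin]
        apply mul_le_mul_of_nonneg_left _ (by positivity)
        have h3 := hdist j hj
        have h4 : ‖S j - p‖ ^ 2 ≤ ‖S j - q‖ ^ 2 := pow_le_pow_left₀ (norm_nonneg _) h3 2
        rw [norm_sub_sq_real, norm_sub_sq_real, real_inner_comm, real_inner_comm q] at h4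
        linarith
    · intro j
      by_cases hj : j = a
      · right
        rw [hj, ← hp, hrefl, hq]
      · left
        exact (hT j hj).symm


end Pool.Agent.Helper985.Pol
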