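import Pool.Agent.Helper985.Pol.M_lift_one
import Pool.Agent.Helper985.Pol.M_single
import Pool.Agent.Helper985.Pol.Defs

set_option autoImplicit false

open MeasureTheory
open scoped Topology

namespace Pool.Agent.Helper985.Pol



theorem lift_all_step (W : Fin 4 → E3 → ℝ) (hW : ∀ j, Rad (W j)) (R : Fin 4 → E3) (a : Fin 4)
    (η : ℝ) (hη : 0 ≤ η) :
    ∃ S : Fin 4 → E3, en W R ≤ en W S ∧ (∀ i, i ≠ a → S i = R i) ∧ ‖S a - R a‖ ≤ Real.sqrt η ∧
      ∀ i j, i ≠ j → dist (S i) (S j) ^ 2 =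
        dist (R i) (R j) ^ 2 + (if i = a ∨ j = a then η else 0) := by
  obtain ⟨S, h1, h2, h3⟩ := lift_one R a η hη
  refine ⟨S, ?_, h1, h2, ?_⟩
  · refine single W hW a R S ?_ ?_
    · intro i j hi hj
      rw [h1 i hi, h1 j hj]
    · intro j
      by_cases hj : j = a
      · rw [hj, dist_self, dist_self]
      · have h4 := h3 j hj
        have h5 : dist (R a) (R j) ^ 2 ≤ dist (S a) (S j) ^ 2 := by linarith
        exact (pow_le_pow_iff_left₀ dist_nonneg dist_nonneg two_ne_zero).mp h5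
  · intro i j hij
    by_cases hi : i = a
    · subst hi
      rw [if_pos (Or.inl rfl)]
      exact h3 j (Ne.symm hij)
    · by_cases hj : j = a
      · subst hj
        rw [if_pos (Or.inr rfl), dist_comm (S i), dist_comm (R i)]
        exact h3 i hij
      · rw [if_neg (by tauto), h1 i hi, h1 j hj, add_zero]

-- TARGET (prove this)
/-- all squared distances increase by `2 * η` -/
theorem lift_all (W : Fin 4 → E3 → ℝ) (hW : ∀ j, Rad (W j)) (R : Fin 4 → E3) (η : ℝ)
    (hη : 0 ≤ η) :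
    ∃ S : Fin 4 → E3, en W R ≤ en W S ∧ (∀ i, ‖S i - R i‖ ≤ Real.sqrt η) ∧
      ∀ i j, i ≠ j → dist (S i) (S j) ^ 2 = dist (R i) (R j) ^ 2 + 2 * η := by
  obtain ⟨S1, a1, b1, c1, d1⟩ := lift_all_step W hW R 0 η hη
  obtain ⟨S2, a2, b2, c2, d2⟩ := lift_all_step W hW S1 1 η hη
  obtain ⟨S3, a3, b3, c3, d3⟩ := lift_all_step W hW S2 2 η hη
  obtain ⟨S4, a4, b4, c4, d4⟩ := lift_all_step W hW S3 3 η hη
  refine ⟨S4, ((a1.trans a2).trans a3).trans a4, ?_, ?_⟩
  · intro i
    have hi : i = 0 ∨ i = 1 ∨ i = 2 ∨ i = 3 := by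
      revert i
      decide
    rcases hi with rfl | rfl | rfl | rfl
    · rw [b4 0 (by decide), b3 0 (by decide), b2 0 (by decide)]
      exact c1
    · rw [b4 1 (by decide), b3 1 (by decide), ← b1 1 (by decide)]
      exact c2
    · rw [b4 2 (by decide), ← b1 2 (by decide), ← b2 2 (by decide)]
      exact c3
    · rw [← b1 3 (by decide), ← b2 3 (by decide), ← b3 3 (by decide)]
      exact c4
  · intro i j hij
    rw [d4 i j hij, d3 i j hij, d2 i j hij, d1 i j hij]
    have key : (if i = 0 ∨ j = 0 then η else 0) + (if i = 1 ∨ j = 1 then η else 0) +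
        (if i = 2 ∨ j = 2 then η else 0) + (if i = 3 ∨ j = 3 then η else 0) = 2 * η := by
      fin_cases i <;> fin_cases j <;> first
        | exact absurd rfl hij
        | (simp; try ring)
    linarith

end Pool.Agent.Helper985.Pol
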