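import Pool.Agent.Helper985.Pol.M_exists_gram
import Pool.Agent.Helper985.Pol.M_single
import Pool.Agent.Helper985.Pol.Defs

set_option autoImplicit false

open MeasureTheory
open scoped Topology

namespace Pool.Agent.Helper985.Pol



-- TARGET (prove this)
/-- squared distance matrices with positive definite Gram matrix: expansions -/
theorem stair_lb (R S : Fin 4 → E3) (η : ℝ) (hη : 0 < η)
    (hS : ∀ i j, i ≠ j → dist (S i) (S j) ^ 2 = dist (R i) (R j) ^ 2 + 2 * η) (x : Fin 3 → ℝ) :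
    η * ∑ i, x i ^ 2 ≤ ∑ i, ∑ j, x i * x j *
      ((dist (S 0) (S i.succ) ^ 2 + dist (S 0) (S j.succ) ^ 2
        - dist (S i.succ) (S j.succ) ^ 2) / 2) := by
  have h0 : ∀ i, dist (S i) (S i) ^ 2 = 0 := by intro i; simp
  have h0R : ∀ i, dist (R i) (R i) ^ 2 = 0 := by intro i; simp
  have h01 := hS 0 1 (by decide)
  have h02 := hS 0 2 (by decide)
  have h03 := hS 0 3 (by decide)
  have h12 := hS 1 2 (by decide)
  have h13 := hS 1 3 (by decide)
  have h23 := hS 2 3 (by decide)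
  have key : ∀ i j : Fin 4, dist (R i) (R j) ^ 2 = ‖R i - R 0‖ ^ 2 + ‖R j - R 0‖ ^ 2
      - 2 * inner ℝ (R i - R 0) (R j - R 0) := by
    intro i j
    have : dist (R i) (R j) = ‖(R i - R 0) - (R j - R 0)‖ := by
      rw [dist_eq_norm]; congr 1; abel
    rw [this, norm_sub_sq_real]; ring
  have k01 := key 0 1
  have k02 := key 0 2
  have k03 := key 0 3
  have k12 := key 1 2
  have k13 := key 1 3
  have k23 := key 2 3
  simp only [sub_self, norm_zero, inner_zero_left] at k01 k02 k03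
  set u1 := R 1 - R 0
  set u2 := R 2 - R 0
  set u3 := R 3 - R 0
  have hn : 0 ≤ ‖x 0 • u1 + x 1 • u2 + x 2 • u3‖ ^ 2 := by positivity
  rw [norm_add_sq_real, norm_add_sq_real, inner_add_left] at hn
  simp only [real_inner_smul_left, real_inner_smul_right, norm_smul, mul_pow, Real.norm_eq_abs,
    sq_abs] at hn
  have s1 : (Fin.succ (0 : Fin 3)) = 1 := rfl
  have s2 : (Fin.succ (1 : Fin 3)) = 2 := rfl
  have s3 : (Fin.succ (2 : Fin 3)) = 3 := rfl
  have d21 : dist (S 2) (S 1) = dist (S 1) (S 2) := dist_comm _ _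
  have d31 : dist (S 3) (S 1) = dist (S 1) (S 3) := dist_comm _ _
  have d32 : dist (S 3) (S 2) = dist (S 2) (S 3) := dist_comm _ _
  simp only [Fin.sum_univ_three, s1, s2, s3, h0, d21, d31, d32, h01, h02, h03, h12, h13, h23,
    k01, k02, k03, k12, k13, k23]
  have hx : 0 ≤ η * (x 0 + x 1 + x 2) ^ 2 := by positivity
  nlinarith [hn, hx]

theorem stair_real (D : Fin 4 → Fin 4 → ℝ) (hsym : ∀ i j, D i j = D j i) (hd : ∀ i, D i i = 0)
    (hp : ∀ x : Fin 3 → ℝ, 0 ≤ ∑ i, ∑ j, x i * x j *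
      ((D 0 (Fin.succ i) + D 0 (Fin.succ j) - D (Fin.succ i) (Fin.succ j)) / 2)) :
    ∃ P : Fin 4 → E3, ∀ i j, dist (P i) (P j) ^ 2 = D i j := by
  obtain ⟨v, hv⟩ := exists_gram (Matrix.of fun i j =>
    ((D 0 (Fin.succ i) + D 0 (Fin.succ j) - D (Fin.succ i) (Fin.succ j)) / 2)) (by
      apply Matrix.PosSemidef.of_dotProduct_mulVec_nonneg
      · ext i j
        simp only [Matrix.conjTranspose_apply, Matrix.of_apply, star_trivial]
        rw [hsym (Fin.succ j) (Fin.succ i)]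
        ring
      · intro x
        have := hp x
        refine this.trans (le_of_eq ?_)
        simp only [dotProduct, Matrix.mulVec, Matrix.of_apply, star_trivial, Finset.mul_sum]
        refine Finset.sum_congr rfl fun i _ => Finset.sum_congr rfl fun j _ => ?_
        ring)
  simp only [Matrix.of_apply] at hv
  have hn : ∀ i, ‖v i‖ ^ 2 = D 0 (Fin.succ i) := by
    intro i
    rw [← real_inner_self_eq_norm_sq, hv, hd]; ring
  refine ⟨Fin.cons 0 v, ?_⟩
  intro i j
  refine Fin.cases ?_ (fun i => ?_) i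
  · refine Fin.cases ?_ (fun j => ?_) j
    · simp [hd]
    · rw [Fin.cons_zero, Fin.cons_succ, dist_eq_norm, zero_sub, norm_neg, hn]
  · refine Fin.cases ?_ (fun j => ?_) j
    · rw [Fin.cons_zero, Fin.cons_succ, dist_eq_norm, sub_zero, hn, hsym]
    · rw [Fin.cons_succ, Fin.cons_succ, dist_eq_norm, norm_sub_sq_real, hn, hn, hv]
      ring

theorem stair_pert (C D : Fin 4 → Fin 4 → ℝ) (η : ℝ) (hη : 0 < η)
    (hC : ∀ x : Fin 3 → ℝ, η * ∑ i, x i ^ 2 ≤ ∑ i, ∑ j, x i * x j *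
      ((C 0 (Fin.succ i) + C 0 (Fin.succ j) - C (Fin.succ i) (Fin.succ j)) / 2))
    (hCD : ∀ i j, |D i j - C i j| ≤ η / 5) (x : Fin 3 → ℝ) :
    0 ≤ ∑ i, ∑ j, x i * x j *
      ((D 0 (Fin.succ i) + D 0 (Fin.succ j) - D (Fin.succ i) (Fin.succ j)) / 2) := by
  have h1 : ∑ i, ∑ j, x i * x j *
      ((D 0 (Fin.succ i) + D 0 (Fin.succ j) - D (Fin.succ i) (Fin.succ j)) / 2)
      = ∑ i, ∑ j, x i * x j *
      ((C 0 (Fin.succ i) + C 0 (Fin.succ j) - C (Fin.succ i) (Fin.succ j)) / 2)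
      + ∑ i, ∑ j, x i * x j * (((D 0 (Fin.succ i) - C 0 (Fin.succ i))
        + (D 0 (Fin.succ j) - C 0 (Fin.succ j))
        - (D (Fin.succ i) (Fin.succ j) - C (Fin.succ i) (Fin.succ j))) / 2) := by
    rw [← Finset.sum_add_distrib]
    refine Finset.sum_congr rfl fun i _ => ?_
    rw [← Finset.sum_add_distrib]
    refine Finset.sum_congr rfl fun j _ => ?_
    ring
  have h2 : ∀ i j : Fin 3, -(3 / 10 * η * ((x i ^ 2 + x j ^ 2) / 2)) ≤
      x i * x j * (((D 0 (Fin.succ i) - C 0 (Fin.succ i))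
        + (D 0 (Fin.succ j) - C 0 (Fin.succ j))
        - (D (Fin.succ i) (Fin.succ j) - C (Fin.succ i) (Fin.succ j))) / 2) := by
    intro i j
    set e := (((D 0 (Fin.succ i) - C 0 (Fin.succ i))
        + (D 0 (Fin.succ j) - C 0 (Fin.succ j))
        - (D (Fin.succ i) (Fin.succ j) - C (Fin.succ i) (Fin.succ j))) / 2) with he
    have e1 : |e| ≤ 3 / 10 * η := by
      have a1 := abs_le.1 (hCD 0 (Fin.succ i))
      have a2 := abs_le.1 (hCD 0 (Fin.succ j))
      have a3 := abs_le.1 (hCD (Fin.succ i) (Fin.succ j))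
      rw [abs_le]
      constructor <;> rw [he] <;> linarith [a1.1, a1.2, a2.1, a2.2, a3.1, a3.2]
    have e2 : |x i * x j| ≤ (x i ^ 2 + x j ^ 2) / 2 := by
      rw [abs_le]
      constructor <;> nlinarith [sq_nonneg (x i + x j), sq_nonneg (x i - x j)]
    have e3 : |x i * x j * e| ≤ ((x i ^ 2 + x j ^ 2) / 2) * (3 / 10 * η) := by
      rw [abs_mul]
      exact mul_le_mul e2 e1 (abs_nonneg _) (by positivity)
    have := (abs_le.1 e3).1
    linarith
  have h3 : -(9 / 10 * η * ∑ i, x i ^ 2) ≤ ∑ i, ∑ j, x i * x j * (((D 0 (Fin.succ i) - C 0 (Fin.succ i))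
        + (D 0 (Fin.succ j) - C 0 (Fin.succ j))
        - (D (Fin.succ i) (Fin.succ j) - C (Fin.succ i) (Fin.succ j))) / 2) := by
    refine le_trans (le_of_eq ?_) (Finset.sum_le_sum fun i _ => Finset.sum_le_sum fun j _ => h2 i j)
    simp only [Fin.sum_univ_three]
    ring
  have h4 := hC x
  have h5 : 0 ≤ η * ∑ i, x i ^ 2 := mul_nonneg hη.le (Finset.sum_nonneg fun i _ => sq_nonneg _)
  rw [h1]
  linarith

theorem stair_step (W : Fin 4 → E3 → ℝ) (hW : ∀ j, Rad (W j)) (a : Fin 4)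
    (D D' : Fin 4 → Fin 4 → ℝ)
    (h1 : ∀ i j, i ≠ a → j ≠ a → D i j = D' i j) (h2 : ∀ j, D a j ≤ D' a j)
    (P P' : Fin 4 → E3) (hP : ∀ i j, dist (P i) (P j) ^ 2 = D i j)
    (hP' : ∀ i j, dist (P' i) (P' j) ^ 2 = D' i j) : en W P ≤ en W P' := by
  refine single W hW a P P' ?_ ?_
  · intro i j hi hj
    have : dist (P i) (P j) ^ 2 = dist (P' i) (P' j) ^ 2 := by rw [hP, hP', h1 i j hi hj]
    exact (sq_eq_sq₀ dist_nonneg dist_nonneg).1 this
  · intro j
    have : dist (P a) (P j) ^ 2 ≤ dist (P' a) (P' j) ^ 2 := by rw [hP, hP']; exact h2 j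
    exact (sq_le_sq₀ dist_nonneg dist_nonneg).1 this

/-- squared distance matrices with positive definite Gram matrix: expansions -/
theorem stair (W : Fin 4 → E3 → ℝ) (hW : ∀ j, Rad (W j)) (R S R' S' : Fin 4 → E3) (η : ℝ)
    (hη : 0 < η)
    (h : ∀ i j, dist (R i) (R j) ≤ dist (R' i) (R' j))
    (hS : ∀ i j, i ≠ j → dist (S i) (S j) ^ 2 = dist (R i) (R j) ^ 2 + 2 * η)
    (hS' : ∀ i j, i ≠ j → dist (S' i) (S' j) ^ 2 = dist (R' i) (R' j) ^ 2 + 2 * η) :
    en W S ≤ en W S' := by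
  set A : Fin 4 → Fin 4 → ℝ := fun i j => dist (S i) (S j) ^ 2 with hA
  set B : Fin 4 → Fin 4 → ℝ := fun i j => dist (S' i) (S' j) ^ 2 with hB
  have hAB : ∀ i j, A i j ≤ B i j := by
    intro i j
    by_cases hij : i = j
    · subst hij; simp [hA, hB]
    · simp only [hA, hB]
      rw [hS i j hij, hS' i j hij]
      have := h i j
      have h0 : 0 ≤ dist (R i) (R j) := dist_nonneg
      nlinarith
  -- bound on the entries
  obtain ⟨K, hK⟩ : ∃ K : ℝ, ∀ i j, B i j - A i j ≤ K := by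
    refine ⟨∑ i, ∑ j, (B i j - A i j), fun i j => ?_⟩
    have h1 : B i j - A i j ≤ ∑ j, (B i j - A i j) :=
      Finset.single_le_sum (f := fun j => B i j - A i j)
        (fun j _ => sub_nonneg.2 (hAB i j)) (Finset.mem_univ j)
    have h2 : ∑ j, (B i j - A i j) ≤ ∑ i, ∑ j, (B i j - A i j) :=
      Finset.single_le_sum (f := fun i => ∑ j, (B i j - A i j))
        (fun i _ => Finset.sum_nonneg fun j _ => sub_nonneg.2 (hAB i j)) (Finset.mem_univ i)
    exact h1.trans h2
  have hK0 : 0 ≤ K := (sub_nonneg.2 (hAB 0 0)).trans (hK 0 0)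
  obtain ⟨N, hN⟩ := exists_nat_gt (5 * K / η)
  have hN0 : 0 < (N : ℝ) := lt_of_le_of_lt (by positivity) hN
  have hKN : K / N ≤ η / 5 := by
    rw [div_lt_iff₀ hη] at hN
    rw [div_le_iff₀ hN0]
    nlinarith
  set M : ℝ → Fin 4 → Fin 4 → ℝ := fun t i j => (1 - t) * A i j + t * B i j with hM
  have hMsym : ∀ t i j, M t i j = M t j i := by
    intro t i j
    simp only [hM, hA, hB, dist_comm (S i) (S j), dist_comm (S' i) (S' j)]
  have hMd : ∀ t i, M t i i = 0 := by intro t i; simp [hM, hA, hB]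
  have hMmono : ∀ t s i j, t ≤ s → M t i j ≤ M s i j := by
    intro t s i j hts
    simp only [hM]
    nlinarith [hAB i j]
  have hMlb : ∀ t, 0 ≤ t → t ≤ 1 → ∀ x : Fin 3 → ℝ, η * ∑ i, x i ^ 2 ≤ ∑ i, ∑ j, x i * x j *
      ((M t 0 (Fin.succ i) + M t 0 (Fin.succ j) - M t (Fin.succ i) (Fin.succ j)) / 2) := by
    intro t ht0 ht1 x
    have a1 := stair_lb R S η hη hS x
    have a2 := stair_lb R' S' η hη hS' x
    have a3 : ∑ i, ∑ j, x i * x j *
      ((M t 0 (Fin.succ i) + M t 0 (Fin.succ j) - M t (Fin.succ i) (Fin.succ j)) / 2)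
      = (1 - t) * (∑ i, ∑ j, x i * x j *
      ((dist (S 0) (S (Fin.succ i)) ^ 2 + dist (S 0) (S (Fin.succ j)) ^ 2
        - dist (S (Fin.succ i)) (S (Fin.succ j)) ^ 2) / 2)) + t * (∑ i, ∑ j, x i * x j *
      ((dist (S' 0) (S' (Fin.succ i)) ^ 2 + dist (S' 0) (S' (Fin.succ j)) ^ 2
        - dist (S' (Fin.succ i)) (S' (Fin.succ j)) ^ 2) / 2)) := by
      simp only [Finset.mul_sum]
      rw [← Finset.sum_add_distrib]
      refine Finset.sum_congr rfl fun i _ => ?_
      rw [← Finset.sum_add_distrib]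
      refine Finset.sum_congr rfl fun j _ => ?_
      simp only [hM, hA, hB]
      ring
    rw [a3]
    have b1 := mul_le_mul_of_nonneg_left a1 (sub_nonneg.2 ht1)
    have b2 := mul_le_mul_of_nonneg_left a2 ht0
    linarith
  -- the intermediate matrices
  set E : ℝ → ℝ → ℕ → Fin 4 → Fin 4 → ℝ := fun t s l i j =>
    if (i : ℕ) < l ∨ (j : ℕ) < l then M s i j else M t i j with hE
  have hEreal : ∀ (t s : ℝ) (l : ℕ), 0 ≤ t → t ≤ 1 → t ≤ s → s - t ≤ 1 / (N : ℝ) →
      ∃ P : Fin 4 → E3, ∀ i j, dist (P i) (P j) ^ 2 = E t s l i j := by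
    intro t s l ht0 ht1 hts hst
    apply stair_real
    · intro i j
      simp only [hE]
      rw [hMsym s i j, hMsym t i j]
      simp only [or_comm]
    · intro i
      simp only [hE]
      rw [hMd, hMd, ite_self]
    · apply stair_pert (M t) (E t s l) η hη (hMlb t ht0 ht1)
      intro i j
      have hd : |M s i j - M t i j| ≤ η / 5 := by
        have e1 : M s i j - M t i j = (s - t) * (B i j - A i j) := by simp only [hM]; ring
        have e2 := hK i j
        have e3 := sub_nonneg.2 (hAB i j)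
        rw [e1, abs_of_nonneg (mul_nonneg (sub_nonneg.2 hts) e3)]
        calc (s - t) * (B i j - A i j) ≤ 1 / N * K :=
              mul_le_mul hst e2 e3 (by positivity)
          _ = K / N := by ring
          _ ≤ η / 5 := hKN
      simp only [hE]
      split_ifs
      · exact hd
      · simp only [sub_self, abs_zero]; positivity
  have hEstep : ∀ t s l (a : Fin 4), (a : ℕ) = l → t ≤ s →
      ∀ P P' : Fin 4 → E3, (∀ i j, dist (P i) (P j) ^ 2 = E t s l i j) →
        (∀ i j, dist (P' i) (P' j) ^ 2 = E t s (l + 1) i j) → en W P ≤ en W P' := by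
    intro t s l a hal hts P P' hP hP'
    refine stair_step W hW a _ _ ?_ ?_ P P' hP hP'
    · intro i j hi hj
      have hi' : (i : ℕ) ≠ l := fun h => hi (Fin.ext (h.trans hal.symm))
      have hj' : (j : ℕ) ≠ l := fun h => hj (Fin.ext (h.trans hal.symm))
      simp only [hE]
      have : ((i : ℕ) < l ∨ (j : ℕ) < l) ↔ ((i : ℕ) < l + 1 ∨ (j : ℕ) < l + 1) := by omega
      simp only [this]
    · intro j
      simp only [hE]
      have c : (a : ℕ) < l + 1 ∨ (j : ℕ) < l + 1 := Or.inl (by omega)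
      rw [if_pos c]
      split_ifs
      · exact le_rfl
      · exact hMmono t s a j hts
  have hE0 : ∀ t s i j, E t s 0 i j = M t i j := by
    intro t s i j; simp [hE]
  have hE3 : ∀ t s i j, E t s 3 i j = M s i j := by
    intro t s i j
    simp only [hE]
    split_ifs with hc
    · rfl
    · have hi : i = j := by
        apply Fin.ext
        omega
      subst hi
      rw [hMd, hMd]
  have hfull : ∀ (t s : ℝ), 0 ≤ t → t ≤ 1 → t ≤ s → s - t ≤ 1 / (N : ℝ) →
      ∀ P P' : Fin 4 → E3, (∀ i j, dist (P i) (P j) ^ 2 = M t i j) →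
        (∀ i j, dist (P' i) (P' j) ^ 2 = M s i j) → en W P ≤ en W P' := by
    intro t s ht0 ht1 hts hst P P' hP hP'
    obtain ⟨P1, hP1⟩ := hEreal t s 1 ht0 ht1 hts hst
    obtain ⟨P2, hP2⟩ := hEreal t s 2 ht0 ht1 hts hst
    have q1 := hEstep t s 0 0 rfl hts P P1 (fun i j => by rw [hP, hE0]) hP1
    have q2 := hEstep t s 1 1 rfl hts P1 P2 hP1 hP2
    have q3 := hEstep t s 2 2 rfl hts P2 P' hP2 (fun i j => by rw [hP', hE3])
    exact q1.trans (q2.trans q3)
  have hMreal : ∀ (t : ℝ), 0 ≤ t → t ≤ 1 →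
      ∃ P : Fin 4 → E3, ∀ i j, dist (P i) (P j) ^ 2 = M t i j := by
    intro t ht0 ht1
    obtain ⟨P, hP⟩ := hEreal t t 0 ht0 ht1 le_rfl (by rw [sub_self]; positivity)
    exact ⟨P, fun i j => by rw [hP, hE0]⟩
  have hind : ∀ k : ℕ, k ≤ N → ∀ P : Fin 4 → E3,
      (∀ i j, dist (P i) (P j) ^ 2 = M (k / N) i j) → en W S ≤ en W P := by
    intro k
    induction k with
    | zero =>
      intro _ P hP
      refine hfull 0 0 le_rfl zero_le_one le_rfl (by rw [sub_self]; positivity) S P ?_ ?_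
      · intro i j; simp [hM, hA]
      · intro i j; rw [hP]; simp
    | succ k ih =>
      intro hk P hP
      have hk' : (k : ℝ) + 1 ≤ N := by exact_mod_cast hk
      have ht1 : (k : ℝ) / N ≤ 1 := by rw [div_le_one hN0]; linarith
      have ht0 : 0 ≤ (k : ℝ) / N := by positivity
      obtain ⟨P1, hP1⟩ := hMreal (k / N) ht0 ht1
      have q := ih (by omega) P1 hP1
      refine q.trans (hfull (k / N) ((k + 1 : ℕ) / N) ht0 ht1 ?_ ?_ P1 P hP1 hP)
      · push_cast
        exact div_le_div_of_nonneg_right (by linarith) hN0.le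
      · push_cast
        rw [← sub_div]
        apply le_of_eq
        ring
  refine hind N le_rfl S' ?_
  intro i j
  rw [div_self hN0.ne']
  simp [hM, hB]

end Pool.Agent.Helper985.Pol
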