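import Pool.Agent.Helper985.Pol.M_en_limit
import Pool.Agent.Helper985.Pol.M_lift_all
import Pool.Agent.Helper985.Pol.M_stair
import Pool.Agent.Helper985.Pol.Defs

set_option autoImplicit false

open MeasureTheory
open scoped Topology

namespace Pool.Agent.Helper985.Pol

theorem four (W : Fin 4 → E3 → ℝ) (hW : ∀ j, Rad (W j)) (R R' : Fin 4 → E3)
    (h : ∀ i j, dist (R i) (R j) ≤ dist (R' i) (R' j)) : en W R ≤ en W R' := by
  refine en_limit W hW R R' fun ε hε => ?_
  obtain ⟨S, hS1, hS2, hS3⟩ := lift_all W hW R (ε ^ 2) (by positivity)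
  obtain ⟨S', hS1', hS2', hS3'⟩ := lift_all W hW R' (ε ^ 2) (by positivity)
  refine ⟨S', fun i => ?_, hS1.trans (stair W hW R S R' S' (ε ^ 2) (by positivity) h hS3 hS3')⟩
  have := hS2' i
  rwa [Real.sqrt_sq hε.le] at this

end Pool.Agent.Helper985.Pol
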