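import Pool.Agent.Helper985.Pol.M_refl_basic
import Pool.Agent.Helper985.Pol.Defs

set_option autoImplicit false

open MeasureTheory
open scoped Topology

namespace Pool.Agent.Helper985.Pol





-- TARGET (prove this)
theorem gg_compact (n : E3) (c δ : ℝ) (hn : ‖n‖ = 1) (hδ : 0 < δ) (u : E3 → ℝ)
    (hu : HasCompactSupport u) : HasCompactSupport (gg n c δ u) := by
  have hc : Continuous (refl n c) := (contDiff_refl n c).continuous
  have hK : IsCompact (tsupport u ∪ refl n c '' tsupport u) := hu.union (hu.image hc)
  refine HasCompactSupport.intro hK fun x hx => ?_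
  rw [Set.mem_union, not_or] at hx
  have h1 : u x = 0 := image_eq_zero_of_notMem_tsupport hx.1
  have h2 : u (refl n c x) = 0 := by
    apply image_eq_zero_of_notMem_tsupport
    intro h
    exact hx.2 ⟨refl n c x, h, refl_refl n c hn x⟩
  unfold gg kk
  rw [h1, h2]
  simp [Real.sqrt_sq hδ.le]

end Pool.Agent.Helper985.Pol
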