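import Pool.Agent.Helper985.Pol.Defs

set_option autoImplicit false

open MeasureTheory
open scoped Topology

namespace Pool.Agent.Helper985.Pol

-- TARGET (prove this)
theorem lo_exists_normal (R : Fin 4 → E3) (a b : Fin 4) (hab : b ≠ a) :
    ∃ n : E3, ‖n‖ = 1 ∧ ∀ j, j ≠ a → inner ℝ n (R j - R b) = 0 := by
  classical
  set s : Finset E3 := ((Finset.univ.erase a).erase b).image (fun j => R j - R b) with hs
  have hcard : s.card ≤ 2 := by
    refine Finset.card_image_le.trans ?_
    rw [Finset.card_erase_of_mem (Finset.mem_erase.2 ⟨hab, Finset.mem_univ _⟩),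
      Finset.card_erase_of_mem (Finset.mem_univ _), Finset.card_univ, Fintype.card_fin]
  have hfin : Module.finrank ℝ (Submodule.span ℝ (s : Set E3)) ≤ 2 :=
    (finrank_span_finset_le_card s).trans hcard
  have hne : (Submodule.span ℝ (s : Set E3))ᗮ ≠ ⊥ := by
    intro h
    have h1 := Submodule.finrank_add_finrank_orthogonal (Submodule.span ℝ (s : Set E3))
    rw [h, finrank_bot, finrank_euclideanSpace_fin] at h1
    omega
  obtain ⟨m, hm, hm0⟩ := Submodule.exists_mem_ne_zero_of_ne_bot hne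
  refine ⟨(‖m‖⁻¹ : ℝ) • m, ?_, ?_⟩
  · rw [norm_smul, norm_inv, norm_norm, inv_mul_cancel₀ (norm_ne_zero_iff.2 hm0)]
  · intro j hj
    rw [inner_smul_left]
    by_cases hjb : j = b
    · subst hjb; simp
    · have h1 : R j - R b ∈ Submodule.span ℝ (s : Set E3) := by
        apply Submodule.subset_span
        rw [hs, Finset.coe_image]
        exact ⟨j, by simp [hj, hjb], rfl⟩
      have h2 := (Submodule.mem_orthogonal' _ _).1 hm _ h1
      rw [h2, mul_zero]

theorem lo_exists_normal' (R : Fin 4 → E3) (a : Fin 4) :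
    ∃ (n : E3) (z : ℝ), ‖n‖ = 1 ∧ 0 ≤ z ∧ ∀ j, j ≠ a → inner ℝ n (R a - R j) = z := by
  have hab : a + 1 ≠ a := by
    intro h
    have := add_eq_left.1 h
    exact absurd this (by decide)
  obtain ⟨n, hn1, hn⟩ := lo_exists_normal R a (a + 1) hab
  have h1 : ∀ j, j ≠ a → inner ℝ n (R a - R j) = inner ℝ n (R a - R (a + 1)) := by
    intro j hj
    have h2 := hn j hj
    have h3 : R a - R (a + 1) = (R a - R j) + (R j - R (a + 1)) := by abel
    rw [h3, inner_add_right, h2, add_zero]
  rcases le_total 0 (inner ℝ n (R a - R (a + 1))) with h | h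
  · exact ⟨n, _, hn1, h, h1⟩
  · refine ⟨-n, -inner ℝ n (R a - R (a + 1)), by rw [norm_neg, hn1], by linarith, ?_⟩
    intro j hj
    rw [inner_neg_left, h1 j hj]

/-- one point is lifted: all its squared distances increase by `η` -/
theorem lift_one (R : Fin 4 → E3) (a : Fin 4) (η : ℝ) (hη : 0 ≤ η) :
    ∃ S : Fin 4 → E3, (∀ i, i ≠ a → S i = R i) ∧ ‖S a - R a‖ ≤ Real.sqrt η ∧
      ∀ j, j ≠ a → dist (S a) (S j) ^ 2 = dist (R a) (R j) ^ 2 + η := by
  obtain ⟨n, z, hn1, hz, hn⟩ := lo_exists_normal' R a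
  set s := Real.sqrt (z ^ 2 + η) - z with hs
  have hsq : Real.sqrt (z ^ 2 + η) ^ 2 = z ^ 2 + η := Real.sq_sqrt (by positivity)
  have hs0 : 0 ≤ s := by
    rw [hs, sub_nonneg]
    apply Real.le_sqrt_of_sq_le
    linarith
  have hs1 : s ≤ Real.sqrt η := by
    rw [hs, sub_le_iff_le_add]
    apply Real.sqrt_le_iff.2
    have h1 := Real.sqrt_nonneg η
    have h2 := Real.sq_sqrt hη
    refine ⟨by positivity, ?_⟩
    nlinarith [mul_nonneg h1 hz]
  refine ⟨Function.update R a (R a + s • n), ?_, ?_, ?_⟩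
  · intro i hi
    rw [Function.update_of_ne hi]
  · rw [Function.update_self, add_sub_cancel_left, norm_smul, hn1, mul_one,
      Real.norm_of_nonneg hs0]
    exact hs1
  · intro j hj
    rw [Function.update_self, Function.update_of_ne hj, dist_eq_norm, dist_eq_norm]
    have h1 : R a + s • n - R j = (R a - R j) + s • n := by abel
    rw [h1, norm_add_sq_real, inner_smul_right, real_inner_comm, hn j hj, norm_smul, hn1, mul_one,
      Real.norm_of_nonneg hs0]
    have h2 : (s + z) ^ 2 = z ^ 2 + η := by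
      rw [← hsq, hs]; ring
    nlinarith [h2]

end Pool.Agent.Helper985.Pol
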