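import Pool.Agent.Helper985.Pol.M_four
import Pool.Agent.Helper985.Pol.Defs

set_option autoImplicit false

open MeasureTheory
open scoped Topology

namespace Pool.Agent.Helper985.Pol


theorem rad_zero4 : Rad (fun _ : E3 => (0 : ℝ)) where
  li := locallyIntegrable_const (0 : ℝ)
  rad := fun _ _ _ => rfl
  mono := fun _ _ _ _ => le_refl _

/-- extension of a family of functions by zero -/
noncomputable def extW {K : ℕ} (W : Fin K → E3 → ℝ) (i : Fin 4) : E3 → ℝ :=
  if h : i.1 < K then W ⟨i.1, h⟩ else fun _ => 0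

/-- extension of a family of points -/
noncomputable def extR {K : ℕ} (h0 : 0 < K) (R : Fin K → E3) (i : Fin 4) : E3 :=
  if h : i.1 < K then R ⟨i.1, h⟩ else R ⟨0, h0⟩

theorem ext_sum {K : ℕ} (h0 : 0 < K) (hK : K ≤ 4) (W : Fin K → E3 → ℝ) (R : Fin K → E3) (x : E3) :
    ∑ i : Fin 4, extW W i (x - extR h0 R i) = ∑ j : Fin K, W j (x - R j) := by
  interval_cases K <;> simp [extW, extR, Fin.sum_univ_succ]

-- TARGET (prove this)
theorem upto_four (K : ℕ) (hK : K ≤ 4) (W : Fin K → E3 → ℝ) (hW : ∀ j, Rad (W j))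
    (R R' : Fin K → E3)
    (h : ∀ i j, dist (R i) (R j) ≤ dist (R' i) (R' j)) : en W R ≤ en W R' := by
  rcases Nat.eq_zero_or_pos K with rfl | h0
  · have : R = R' := Subsingleton.elim _ _
    rw [this]
  · have hQ : ∀ (S : Fin K → E3), en (extW W) (extR h0 S) = en W S := by
      intro S
      unfold en Q
      simp only [ext_sum h0 hK W S]
    rw [← hQ R, ← hQ R']
    refine four _ ?_ _ _ ?_
    · intro j
      unfold extW
      split_ifs with hj
      · exact hW _
      · exact rad_zero4
    · intro i j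
      unfold extR
      split_ifs with h1 h2 h3
      · exact h _ _
      · exact h _ _
      · exact h _ _
      · exact h _ _

end Pool.Agent.Helper985.Pol
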